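import Pool.Agent.WCal.Br
import Pool.Agent.WCal.ReB
import Pool.Agent.WCal.Simp

/-! # Block D: absoluteness of closed conditions

(problem MP_ba5606_gt, ARH Part II, block D; architect helper50; 0.7 h; `WCal/Br.lean` and `WCal/Simp.lean` are black boxes)

`P m` is a condition on a sequence `z : ℕ → α` which depends only on the values `z i`, `i < g m`. If all `P m` hold for a native
sequence then they hold for an internal sequence.

PROOF. `α` is not empty, let `a0 := z 0` and `extL l i := (l[i]?).getD a0` (the list `l` continued by `a0`). It is an internal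
function `List α → Fn N ℕ α` (`IF.lam`, `IF.optElim` with `IF.getElem?`; `Option.getD` as `Option.elim`). Put
`T l := ∀ m, g m ≤ l.length → P m (extL l)`, an internal predicate (`IP.all`, `IP.imp`, `IP.le`, `hg`, and `hP.comp` with the pair of `m` and the internal
function `l ↦ extL l`). `T (ini z n)` holds for all `n`: `extL (ini z n)` agrees with `z` below `n`. By `exists_branch` there is an internal `y` with
`T (ini y n)` for all `n`; for `n = g m` this gives `P m (extL (ini y (g m)))`, and this sequence agrees with `y` below `g m`. -/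

set_option autoImplicit false

universe u v

namespace CPYD

open WCal WM

variable {N : Type u} [WM N] {α : Type v} [WTy N α]

theorem branch_abs {P : ℕ → (ℕ → α) → Prop} {g : ℕ → ℕ} (hg : IF N g)
    (hP : IP N (fun p : ℕ × Fn N ℕ α => P p.1 p.2))
    (hloc : ∀ m z z', (∀ i < g m, z i = z' i) → P m z → P m z') (z : ℕ → α) (hz : ∀ m, P m z) :
    ∃ z' : ℕ → α, IF N z' ∧ ∀ m, P m z' := by
  have he : IF N (fun p : List α × ℕ => (p.1[p.2]?).elim (z 0) fun a => a) :=
    IF.optElim (IF.getElem? IF.fst IF.snd) (IF.const _) IF.snd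
  have hE := IF.lam (f := fun (l : List α) (i : ℕ) => (l[i]?).elim (z 0) fun a => a) he
  have hT : IP N (fun l : List α => ∀ m, g m ≤ l.length → P m fun i => (l[i]?).elim (z 0) fun a => a) := by
    refine IP.all (P := fun (l : List α) (m : ℕ) => g m ≤ l.length → P m fun i => (l[i]?).elim (z 0) fun a => a)
      (IP.imp (IP.le (hg.comp IF.snd) (IF.length IF.fst)) ?_)
    exact IP.comp (f := fun p : List α × ℕ =>
      (p.2, (⟨fun i => (p.1[i]?).elim (z 0) fun a => a,
        IF.sec (f := fun (l : List α) (i : ℕ) => (l[i]?).elim (z 0) fun a => a) he p.1⟩ : Fn N ℕ α))) hP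
      (IF.pair IF.snd (IF.comp hE IF.fst))
  have hag : ∀ (y : ℕ → α) (n i : ℕ), i < n → ((ini y n)[i]?).elim (z 0) (fun a => a) = y i := by
    intro y n i hi
    simp [ini, List.getElem?_range hi]
  obtain ⟨y, hy, hy'⟩ := exists_branch hT z fun n m hm => by
    rw [ini_length] at hm
    exact hloc m z _ (fun i hi => (hag z n i (by omega)).symm) (hz m)
  refine ⟨y, hy, fun m => hloc m _ _ (fun i hi => hag y (g m) i hi) (hy' (g m) m ?_)⟩
  rw [ini_length]

end CPYD
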