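import Pool.Agent.CPY.D.Defs

/-! # Block D: the projection of a Borel set is the projection of a closed set

(problem MP_ba5606_gt, ARH Part II, block D; architect helper50; Mathlib only, 0.4 h)

PROOF of `exists_closed_proj`. The Borel set `B` of the Polish space `X × Y` is analytic (`MeasurableSet.analyticSet`), and so is its
image `S` under `Prod.fst` (`AnalyticSet.image_of_continuous`). By `MeasureTheory.AnalyticSet` (unfold, see
`MeasureTheory.analyticSet_iff_exists_polishSpace_range` or the definition) either `S = ∅`, then `F = ∅`; or there is a continuous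
`f : (ℕ → ℕ) → X` with `Set.range f = S`: then `F = {p | f p.2 = p.1}`, closed by `isClosed_eq`. -/

set_option autoImplicit false

namespace CPYD

open MeasureTheory

theorem exists_closed_proj {X Y : Type} [TopologicalSpace X] [PolishSpace X] [MeasurableSpace X] [BorelSpace X]
    [TopologicalSpace Y] [PolishSpace Y] [MeasurableSpace Y] [BorelSpace Y] {B : Set (X × Y)}
    (hB : MeasurableSet B) :
    ∃ F : Set (X × (ℕ → ℕ)), IsClosed F ∧ ∀ x, (∃ y, (x, y) ∈ B) ↔ ∃ v, (x, v) ∈ F := by
  have h1 : AnalyticSet B := hB.analyticSet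
  have h2 : AnalyticSet (Prod.fst '' B) := h1.image_of_continuous continuous_fst
  have h3 : ∀ x, (∃ y, (x, y) ∈ B) ↔ x ∈ Prod.fst '' B := by
    intro x
    constructor
    · rintro ⟨y, hy⟩
      exact ⟨(x, y), hy, rfl⟩
    · rintro ⟨⟨a, y⟩, hy, rfl⟩
      exact ⟨y, hy⟩
  rw [AnalyticSet] at h2
  rcases h2 with h2 | ⟨f, hf, h2⟩
  · refine ⟨∅, isClosed_empty, fun x => ?_⟩
    rw [h3, h2]
    simp
  · refine ⟨{p | f p.2 = p.1}, isClosed_eq (hf.comp continuous_snd) continuous_fst, fun x => ?_⟩
    rw [h3, ← h2]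
    rfl

end CPYD
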