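import Pool.Agent.CPY.D.Mtb

/-! # Block D: the Borel set

(problem MP_ba5606_gt, ARH Part II, block D; architect helper50; proved by helper79; `Mtb.lean` is
a black box) -/

set_option autoImplicit false

namespace CPYD

open WCal LGr

variable {X : Type*} [MeasurableSpace X]

private theorem m_app {f : X → ℕ → Bool} (hf : Measurable f) (n : ℕ) :
    Measurable fun x => f x n = true := by
  have h : Measurable fun c : Bool => c = true := measurable_of_countable _
  exact h.comp ((measurable_pi_apply n).comp hf)

private theorem m_eq {f : X → ℕ → ℕ} (hf : Measurable f) (n m : ℕ) :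
    Measurable fun x => f x n = m := by
  have h : Measurable fun c : ℕ => c = m := measurable_of_countable _
  exact h.comp ((measurable_pi_apply n).comp hf)

private theorem m_Jb {f : X → ℕ → Bool} (hf : Measurable f) (x y : ℕ) :
    Measurable fun p => Jb (f p) x y := m_app hf _

private theorem m_Eb {f : X → ℕ → Bool} (hf : Measurable f) (x y : ℕ) :
    Measurable fun p => Eb (f p) x y := m_app hf _

private theorem m_num {f : X → ℕ → Bool} (hf : Measurable f) (n z : ℕ) :
    Measurable fun p => isNum (Eb (f p)) n z := (mea_isNum n z).comp hf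

private theorem m_evS {f : X → ℕ → Bool} (hf : Measurable f) : Measurable fun p => evS (f p) := by
  rw [measurable_pi_iff]
  exact fun n => (measurable_pi_apply _).comp hf

private theorem m_odS {f : X → ℕ → Bool} (hf : Measurable f) : Measurable fun p => odS (f p) := by
  rw [measurable_pi_iff]
  exact fun n => (measurable_pi_apply _).comp hf

private theorem m_IsRea {f : X → ℕ → Bool} (hf : Measurable f) (k : ℕ) :
    Measurable fun p => IsRea (f p) k :=
  Measurable.forall fun z => (m_Eb hf z k).imp (Measurable.exists fun n => m_num hf n z)

private theorem m_Rea {f g : X → ℕ → Bool} (hf : Measurable f) (hg : Measurable g) (k : ℕ) :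
    Measurable fun p => Rea (f p) k (g p) :=
  (m_IsRea hf k).and (Measurable.forall fun n => (m_app hg n).iff
    (Measurable.exists fun z => (m_num hf n z).and (m_Eb hf z k)))

private theorem m_N0w {b t x : X → ℕ → Bool} {h : X → ℕ → ℕ} (hb : Measurable b)
    (ht : Measurable t) (hx : Measurable x) (hh : Measurable h) :
    Measurable fun p => N0w (b p) (t p) (x p) (h p) := by
  unfold N0w
  refine Measurable.or (Measurable.not ?_) (Measurable.or ?_ (Measurable.or ?_ (Measurable.and
    (Measurable.not ?_) ?_)))
  · exact (measurableSet_setOfPred.1 mea_Tb).comp ((m_evS hb).prodMk ht)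
  · refine Measurable.forall fun n => ?_
    have h1 : (fun p => Jb (evS (b p)) (h p (n + 1)) (h p n)) = fun p => ∃ i j,
        h p (n + 1) = i ∧ h p n = j ∧ Jb (evS (b p)) i j := by
      funext p
      simp
    rw [h1]
    exact Measurable.exists fun i => Measurable.exists fun j => (m_eq hh _ _).and
      ((m_eq hh _ _).and (m_Jb (m_evS hb) i j))
  · exact Measurable.exists fun k => (m_app (m_odS hb) k).and (m_Rea (m_evS hb) hx k)
  · exact Measurable.exists fun k => (m_app (m_odS hb) k).and (m_IsRea (m_evS hb) k)
  · have h1 : (fun p => x p = fun _ => false) = fun p => ∀ n, ¬ x p n = true := by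
      funext p
      simp [funext_iff]
    rw [h1]
    exact Measurable.forall fun n => (m_app hx n).not

private theorem m_ini {c : X → ℕ → Bool} (hc : Measurable c) :
    ∀ (n : ℕ) (l : List Bool), Measurable fun p => ini (c p) n = l := by
  intro n
  induction n with
  | zero =>
    intro l
    have h1 : (fun p => ini (c p) 0 = l) = fun _ => [] = l := by
      funext p
      simp [ini]
    rw [h1]
    exact measurable_const
  | succ n ih =>
    intro l
    have h1 : (fun p => ini (c p) (n + 1) = l) = fun p => ∃ (l' : List Bool) (e : Bool),
        ini (c p) n = l' ∧ (c p n = true ↔ e = true) ∧ l' ++ [e] = l := by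
      funext p
      rw [ini_succ]
      apply propext
      constructor
      · intro h
        exact ⟨_, _, rfl, Iff.rfl, h⟩
      · rintro ⟨l', e, h1, h2, h3⟩
        rw [h1, Bool.coe_iff_coe.1 h2, h3]
    rw [h1]
    exact Measurable.exists fun l' => Measurable.exists fun e => (ih l').and
      (((m_app hc n).iff measurable_const).and measurable_const)

private theorem m_Dec {d c x : X → ℕ → Bool} (hd : Measurable d) (hc : Measurable c)
    (hx : Measurable x) : Measurable fun p => Dec (d p) (c p) (x p) := by
  unfold Dec
  refine Measurable.forall fun k => Measurable.exists fun n0 => Measurable.forall fun n =>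
    Measurable.forall fun _ => ?_
  have h1 : (fun p => d p (Nat.pair k (encB (ini (c p) n))) = x p k) = fun p =>
      ∃ l : List Bool, ini (c p) n = l ∧ (d p (Nat.pair k (encB l)) = true ↔ x p k = true) := by
    funext p
    simp
  rw [h1]
  exact Measurable.exists fun l => (m_ini hc n l).and ((m_app hd _).iff (m_app hx _))

private theorem m_Cut {x : X → ℕ → Bool} {y : X → ℕ → ℝ} (hx : Measurable x) (hy : Measurable y) :
    Measurable fun p => Cut (x p) (y p) := by
  unfold Cut
  exact Measurable.forall fun n => Measurable.forall fun q => (m_app hx _).iff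
    (measurableSet_setOfPred.1 (measurableSet_lt measurable_const
      ((measurable_pi_apply n).comp hy)))

private theorem m_Apx {a : X → ℕ → ℕ} {y : X → ℕ → ℝ} (ha : Measurable a) (hy : Measurable y) :
    Measurable fun p => Apx (a p) (y p) := by
  unfold Apx
  refine Measurable.forall fun n => Measurable.forall fun j => ?_
  have h1 : (fun p => |y p n - ((qe.symm (a p (Nat.pair n j)) : ℚ) : ℝ)| ≤ (1 / 2 : ℝ) ^ j) =
      fun p => ∃ m, a p (Nat.pair n j) = m ∧ |y p n - ((qe.symm m : ℚ) : ℝ)| ≤ (1 / 2 : ℝ) ^ j := by
    funext p
    simp
  rw [h1]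
  refine Measurable.exists fun m => (m_eq ha _ _).and (measurableSet_setOfPred.1
    (measurableSet_le ?_ measurable_const))
  exact (((measurable_pi_apply n).comp hy).sub measurable_const).norm

theorem mea_BB : MeasurableSet BB := by
  refine measurableSet_setOfPred.2 (Measurable.and (m_N0w ?_ ?_ ?_ ?_) (Measurable.and
    (m_Dec ?_ ?_ ?_) (Measurable.and (m_Cut ?_ ?_) (m_Apx ?_ ?_)))) <;> fun_prop

end CPYD
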