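import Pool.Agent.CPY.D.Ana
import Pool.Agent.CPY.D.Mbb

/-! # Block D: the closed sets

(problem MP_ba5606_gt, ARH Part II, block D; architect helper50; proved by helper79; `Ana.lean` and
`Mbb.lean` are black boxes)

`F2`: the closed set with the projection `SS`. `T2`: its approximations, the fixed predicate which
is
coded by the parameter of the ground model. `FF t d`: the closed set of the principle H. -/

set_option autoImplicit false

namespace CPYD

open WCal LGr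

private theorem pol : PolishSpace (ℕ → Bool) :=
  { (inferInstance : SecondCountableTopology (ℕ → Bool)),
    (inferInstance : TopologicalSpace.IsCompletelyMetrizableSpace (ℕ → Bool)) with }

set_option synthInstance.maxSize 4000 in
theorem exists_F2 : ∃ F : Set (XX × (ℕ → ℕ)), IsClosed F ∧ ∀ p, p ∈ SS ↔ ∃ v, (p, v) ∈ F := by
  have := pol
  have : BorelSpace XX := inferInstance
  have : BorelSpace YY := inferInstance
  exact exists_closed_proj mea_BB

/-- the closed set with the projection `SS` -/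
def F2 : Set (XX × (ℕ → ℕ)) := exists_F2.choose

theorem closed_F2 : IsClosed F2 := exists_F2.choose_spec.1

theorem mem_SS (p : XX) : p ∈ SS ↔ ∃ v, (p, v) ∈ F2 := exists_F2.choose_spec.2 p

/-- the approximations of the points of `F2` -/
def T2 (l : List (Bool × Bool × Bool × ℕ × ℕ)) : Prop := Tre F2 l

/-- the closed set of the principle H -/
def FF (t d : ℕ → Bool) : Set ((ℕ → Bool) × (ℕ → ℝ) × (ℕ → ℕ)) :=
  {p | ((p.1, t, d, evS p.2.2), odS p.2.2) ∈ F2 ∧ Apx (evS p.2.2) p.2.1}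

private theorem ini_get1 {α : Type*} (x : ℕ → α) {n i : ℕ} (h : i < n) :
    (ini x n)[i]? = some (x i) := by
  simp [ini, List.getElem?_range h]

private theorem ini_eq1 {α : Type*} {x y : ℕ → α} {n i : ℕ} (h : ini x n = ini y n) (hi : i < n) :
    x i = y i := by
  have h1 := ini_get1 x hi
  rw [h, ini_get1 y hi] at h1
  exact (Option.some.inj h1).symm

private theorem tend {α : Type*} [TopologicalSpace α] {x : ℕ → α} {y : ℕ → ℕ → α}
    (h : ∀ m, ∀ i < m, x i = y m i) : Filter.Tendsto y Filter.atTop (nhds x) := by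
  rw [tendsto_pi_nhds]
  intro i
  refine tendsto_const_nhds.congr' ?_
  filter_upwards [Filter.eventually_gt_atTop i] with m hm
  exact h m i hm

theorem F2_iff (b t d : ℕ → Bool) (a v : ℕ → ℕ) :
    ((b, t, d, a), v) ∈ F2 ↔ ∀ m, T2 (ini (tup b t d a v) m) := by
  refine ⟨fun h m => ⟨b, t, d, a, v, h, by rw [ini_length]⟩, fun h => ?_⟩
  choose b' t' d' a' v' hF he using h
  have hq : ∀ m, ∀ i < m, tup b t d a v i = tup (b' m) (t' m) (d' m) (a' m) (v' m) i := by
    intro m i hi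
    have h1 := he m
    rw [ini_length] at h1
    exact ini_eq1 h1 hi
  simp only [tup, Prod.mk.injEq] at hq
  have h1 := tend fun m i hi => (hq m i hi).1
  have h2 := tend fun m i hi => (hq m i hi).2.1
  have h3 := tend fun m i hi => (hq m i hi).2.2.1
  have h4 := tend fun m i hi => (hq m i hi).2.2.2.1
  have h5 := tend fun m i hi => (hq m i hi).2.2.2.2
  exact closed_F2.mem_of_tendsto ((h1.prodMk_nhds (h2.prodMk_nhds (h3.prodMk_nhds h4))).prodMk_nhds
    h5) (Filter.Eventually.of_forall hF)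

theorem closed_FF (t d : ℕ → Bool) : IsClosed (FF t d) := by
  have c1 : Continuous fun v : ℕ → ℕ => evS v := continuous_pi fun n => continuous_apply _
  have c2 : Continuous fun v : ℕ → ℕ => odS v := continuous_pi fun n => continuous_apply _
  refine IsClosed.inter (closed_F2.preimage (f := fun p : (ℕ → Bool) × (ℕ → ℝ) × (ℕ → ℕ) =>
    ((p.1, t, d, evS p.2.2), odS p.2.2)) ?_) ?_
  · have h1 : Continuous fun p : (ℕ → Bool) × (ℕ → ℝ) × (ℕ → ℕ) => evS p.2.2 :=
      c1.comp (continuous_snd.comp continuous_snd)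
    have h2 : Continuous fun p : (ℕ → Bool) × (ℕ → ℝ) × (ℕ → ℕ) => odS p.2.2 :=
      c2.comp (continuous_snd.comp continuous_snd)
    exact (continuous_fst.prodMk (continuous_const.prodMk (continuous_const.prodMk h1))).prodMk h2
  · have h0 : {p : (ℕ → Bool) × (ℕ → ℝ) × (ℕ → ℕ) | Apx (evS p.2.2) p.2.1} = ⋂ (n : ℕ) (j : ℕ),
        {p : (ℕ → Bool) × (ℕ → ℝ) × (ℕ → ℕ) |
          |p.2.1 n - ((qe.symm (evS p.2.2 (Nat.pair n j)) : ℚ) : ℝ)| ≤ (1 / 2 : ℝ) ^ j} := by
      ext p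
      simp only [Set.mem_ofPred_eq, Set.mem_iInter, Apx]
    have h : IsClosed {p : (ℕ → Bool) × (ℕ → ℝ) × (ℕ → ℕ) | Apx (evS p.2.2) p.2.1} := by
      rw [h0]
      refine isClosed_iInter fun n => isClosed_iInter fun j => isClosed_le ?_ continuous_const
      have h1 : Continuous fun m : ℕ => ((qe.symm m : ℚ) : ℝ) := continuous_of_discreteTopology
      have h2 : Continuous fun p : (ℕ → Bool) × (ℕ → ℝ) × (ℕ → ℕ) => evS p.2.2 (Nat.pair n j) :=
        (continuous_apply (2 * Nat.pair n j)).comp (continuous_snd.comp continuous_snd)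
      exact (((continuous_apply n).comp (continuous_fst.comp continuous_snd)).sub
        (h1.comp h2)).abs
    exact h

theorem exists_apx (y : ℕ → ℝ) : ∃ a, Apx a y := by
  have h : ∀ n j : ℕ, ∃ q : ℚ, |y n - q| ≤ (1 / 2 : ℝ) ^ j := by
    intro n j
    have h0 : (0 : ℝ) < (1 / 2 : ℝ) ^ j := by positivity
    obtain ⟨q, h1, h2⟩ := exists_rat_btwn (show y n < y n + (1 / 2 : ℝ) ^ j by linarith)
    refine ⟨q, ?_⟩
    rw [abs_le]
    constructor <;> linarith
  choose q hq using h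
  refine ⟨fun k => qe (q (Nat.unpair k).1 (Nat.unpair k).2), fun n j => ?_⟩
  simp only [Nat.unpair_pair, Equiv.symm_apply_apply]
  exact hq n j

private theorem pow_tend : Filter.Tendsto (fun j : ℕ => (1 / 2 : ℝ) ^ j) Filter.atTop (nhds 0) :=
  tendsto_pow_atTop_nhds_zero_of_lt_one (by norm_num) (by norm_num)

theorem apx_unique {a : ℕ → ℕ} {y y' : ℕ → ℝ} (h : Apx a y) (h' : Apx a y') : y = y' := by
  funext n
  have h1 : ∀ j : ℕ, |y n - y' n| ≤ (1 / 2 : ℝ) ^ j + (1 / 2 : ℝ) ^ j := by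
    intro j
    have h2 := h n j
    have h3 := h' n j
    rw [abs_sub_comm] at h3
    exact (abs_sub_le _ ((qe.symm (a (Nat.pair n j)) : ℚ) : ℝ) _).trans (add_le_add h2 h3)
  have h2 : |y n - y' n| ≤ 0 + 0 :=
    ge_of_tendsto (pow_tend.add pow_tend) (Filter.Eventually.of_forall h1)
  rw [add_zero] at h2
  exact sub_eq_zero.1 (abs_eq_zero.1 (le_antisymm h2 (abs_nonneg _)))

theorem exists_lim {a : ℕ → ℕ} (h : ∀ n j j', |((qe.symm (a (Nat.pair n j)) : ℚ) : ℝ) -
    ((qe.symm (a (Nat.pair n j')) : ℚ) : ℝ)| ≤ (1 / 2 : ℝ) ^ j + (1 / 2 : ℝ) ^ j') : ∃ y, Apx a y := by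
  have h1 : ∀ n, ∃ y : ℝ, ∀ j, |y - ((qe.symm (a (Nat.pair n j)) : ℚ) : ℝ)| ≤ (1 / 2 : ℝ) ^ j := by
    intro n
    have hc : CauchySeq fun j : ℕ => ((qe.symm (a (Nat.pair n j)) : ℚ) : ℝ) := by
      rw [Metric.cauchySeq_iff]
      intro ε hε
      obtain ⟨N, hN⟩ := (pow_tend.eventually (gt_mem_nhds (show (0 : ℝ) < ε / 2 by linarith))).exists
      refine ⟨N, fun m hm m' hm' => ?_⟩
      rw [Real.dist_eq]
      have h2 : ∀ k ≥ N, (1 / 2 : ℝ) ^ k ≤ (1 / 2 : ℝ) ^ N := fun k hk =>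
        pow_le_pow_of_le_one (by norm_num) (by norm_num) hk
      have h3 := h2 m hm
      have h4 := h2 m' hm'
      have h5 := h n m m'
      linarith
    obtain ⟨y, hy⟩ := cauchySeq_tendsto_of_complete hc
    refine ⟨y, fun j => ?_⟩
    have h2 : Filter.Tendsto (fun j' : ℕ => |((qe.symm (a (Nat.pair n j')) : ℚ) : ℝ) -
        ((qe.symm (a (Nat.pair n j)) : ℚ) : ℝ)|) Filter.atTop
        (nhds |y - ((qe.symm (a (Nat.pair n j)) : ℚ) : ℝ)|) := (hy.sub_const _).abs
    have h3 : Filter.Tendsto (fun j' : ℕ => (1 / 2 : ℝ) ^ j' + (1 / 2 : ℝ) ^ j) Filter.atTop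
        (nhds (0 + (1 / 2 : ℝ) ^ j)) := pow_tend.add_const _
    rw [zero_add] at h3
    exact le_of_tendsto_of_tendsto' h2 h3 fun j' => h n j' j
  choose y hy using h1
  exact ⟨y, hy⟩

theorem F2_of_NN {b t d : ℕ → Bool} {y : ℕ → ℝ} (h : NN b t d y) {a : ℕ → ℕ} (ha : Apx a y) :
    ∃ v, ((b, t, d, a), v) ∈ F2 := by
  rw [← mem_SS]
  obtain ⟨c, x, h1, h2, h3⟩ := h
  have h4 : ∃ g, N0w b t c g := by
    rcases h1 with h1 | h1 | h1 | h1
    · exact ⟨fun _ => 0, Or.inl h1⟩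
    · rw [wellFounded_iff_isEmpty_descending_chain, not_isEmpty_iff] at h1
      obtain ⟨⟨g, hg⟩⟩ := h1
      exact ⟨g, Or.inr (Or.inl hg)⟩
    · exact ⟨fun _ => 0, Or.inr (Or.inr (Or.inl h1))⟩
    · exact ⟨fun _ => 0, Or.inr (Or.inr (Or.inr h1))⟩
  obtain ⟨g, hg⟩ := h4
  exact ⟨(c, g, x, y), hg, h2, h3, ha⟩

theorem NN_of_FF {b t d : ℕ → Bool} {y : ℕ → ℝ} {v : ℕ → ℕ} (h : (b, y, v) ∈ FF t d) : NN b t d y := by
  obtain ⟨⟨c, g, x, y'⟩, h1, h2, h3, h4⟩ := (mem_SS _).2 ⟨_, h.1⟩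
  have hy : y = y' := apx_unique h.2 h4
  subst hy
  refine ⟨c, x, ?_, h2, h3⟩
  rcases h1 with h1 | h1 | h1 | h1
  · exact Or.inl h1
  · refine Or.inr (Or.inl ?_)
    rw [wellFounded_iff_isEmpty_descending_chain, not_isEmpty_iff]
    exact ⟨⟨g, h1⟩⟩
  · exact Or.inr (Or.inr (Or.inl h1))
  · exact Or.inr (Or.inr (Or.inr h1))

end CPYD
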