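import Pool.Agent.CPY.D.Enc

/-! # Block D: coded reals of a structure (internal relation, uniqueness)

(problem MP_ba5606_gt, ARH Part II, block D; architect helper50; 0.8 h; other files are black boxes)

PROOFS.
* `rea_unique`: both `x n = true` and `x' n = true` are equivalent to the same statement. `exists_rea`: `x n := decide (∃ z, ...)`.
* `exists_rea_emp`: `Coh.emp` gives an empty element `k`; `IsRea b k` and `Rea b k (fun _ => false)` are vacuous.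
* `ip_Eb`: `Eb b x y` is `b (4 * Nat.pair x y) = true` (`IP.eq`, `IF.comp`, `IF.npair`, `IF.mul`, constants). `ip_isNum`: `isNum (Eb b) n z`
  is the value at `n` of the internal sequence of sets `S : ℕ → St N ℕ` defined by recursion (`IF.natRec` with values in `St N ℕ`):
  `S 0 = {x | ∀ z, ¬ Eb b z x}`, `S (n + 1) = {x | ∃ y ∈ S n, ∀ z, Eb b z x ↔ Eb b z y ∨ z = y}`. `ip_IsRea`, `ip_Rea`: quantifiers.
* `exists_N0` (principle (F1), native): if `¬ Tb (evS b) t` or `Jb (evS b)` is not well-founded: any `a`. Otherwise, if some `k` with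
  `odS b k = true` satisfies `IsRea (evS b) k`: let `Rea (evS b) k x` (`exists_rea`), `hA1` gives `a` with `c a = x`. Otherwise `exists_rea_emp` and
  `hA1` give `a` with `c a = fun _ => false`.
* `exists_b` (principle (F2)): `hA2 γ` gives `b'`, `k0`, `x0` with `Rea b' k0 x0` and `c a ≠ x0` for `a ≤ γ`; by `hA1` `c a0 = x0`, so `γ < a0`. Put `Q k a := γ < a ∧
  Rea b' k (c a)` (internal: `ip_Rea`, `hc`). `b := mgS b' (fun k => decide (∃ a, Q k a))`, internal. By `choice'` (default `a0`) there is an internal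
  `f : ℕ → Θ` with `Q k (f k)` whenever `∃ a, Q k a`; `s k := if ∃ a, Q k a then f k else a0`. Let `N0 b t x`. The first two cases of `N0` are false, the
  fourth is false since `odS b k0 = true` and `IsRea b' k0`. So `odS b k = true`, `Rea b' k x`; hence `Q k (s k)` and `c (s k) = x` by
  `rea_unique`. -/

set_option autoImplicit false

universe u v w

namespace CPYD

open WCal WM LGr

theorem rea_unique {b : ℕ → Bool} {k : ℕ} {x x' : ℕ → Bool} (h : Rea b k x) (h' : Rea b k x') : x = x' := by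
  funext n
  exact Bool.eq_iff_iff.2 ((h.2 n).trans (h'.2 n).symm)

theorem exists_rea {b : ℕ → Bool} {k : ℕ} (h : IsRea b k) : ∃ x, Rea b k x := by
  classical
  exact ⟨fun n => decide (∃ z, isNum (Eb b) n z ∧ Eb b z k), h, fun n => decide_eq_true_iff⟩

theorem exists_rea_emp {b t : ℕ → Bool} (h : Tb b t) : ∃ k, Rea b k fun _ => false := by
  obtain ⟨k, hk⟩ := h.emp
  refine ⟨k, fun z hz => absurd hz (hk z), fun n => ⟨fun h => absurd h (by simp), ?_⟩⟩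
  rintro ⟨z, -, hz⟩
  exact absurd hz (hk z)

variable {N : Type u} [WM N] {α : Type v} [WTy N α]

private theorem ip_Eb {b : ℕ → Bool} (hb : IF N b) : IP N (fun p : ℕ × ℕ => Eb b p.1 p.2) :=
  IP.eq (hb.comp (IF.mul (IF.const 4) (IF.npair IF.fst IF.snd))) (IF.const true)

theorem ip_isNum {b : ℕ → Bool} (hb : IF N b) : IP N (fun p : ℕ × ℕ => isNum (Eb b) p.1 p.2) := by
  have hE := ip_Eb hb
  have h0 : IP N (fun x : ℕ => ∀ z, ¬ Eb b z x) := by
    simp (maxDischargeDepth := 99) only [IP.all, IP.not, hE.comp2, IF.fst', IF.snd', IF.id]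
  have h1 : IP N (fun p : St N ℕ × ℕ => ∃ y, y ∈ p.1 ∧ ∀ z, (Eb b z p.2 ↔ Eb b z y ∨ z = y)) := by
    simp (maxDischargeDepth := 99) only [IP.all, IP.ex, IP.and, IP.or, IP.iff, IP.eq, IP.mem, hE.comp2, IF.fst',
      IF.snd', IF.id]
  have h2 := IF.compr (P := fun (S : St N ℕ) (x : ℕ) => ∃ y, y ∈ S ∧ ∀ z, (Eb b z x ↔ Eb b z y ∨ z = y)) h1
  have h3 := IF.natRec (γ := Unit) (b := fun _ => (⟨{x | ∀ z, ¬ Eb b z x}, h0⟩ : St N ℕ))
    (g := fun _ _ S => (⟨{x | ∃ y, y ∈ S ∧ ∀ z, (Eb b z x ↔ Eb b z y ∨ z = y)}, h1.sec S⟩ : St N ℕ))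
    (IF.const _) (IF.comp h2 (IF.snd' IF.snd))
  have h4 : ∀ n x, x ∈ (Nat.rec (⟨{x | ∀ z, ¬ Eb b z x}, h0⟩ : St N ℕ)
      (fun _ S => (⟨{x | ∃ y, y ∈ S ∧ ∀ z, (Eb b z x ↔ Eb b z y ∨ z = y)}, h1.sec S⟩ : St N ℕ)) n : St N ℕ) ↔
      isNum (Eb b) n x := by
    intro n
    induction n with
    | zero => exact fun x => Iff.rfl
    | succ n ih =>
      intro x
      exact exists_congr fun y => and_congr (ih y) Iff.rfl
  refine IP.congr (fun p => h4 p.1 p.2) ?_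
  exact IP.mem IF.snd (IF.comp (f := fun p : ℕ × ℕ => ((), p.1)) h3 (IF.pair (IF.const _) IF.fst))

theorem ip_Rea {b : ℕ → Bool} (hb : IF N b) {c : α → ℕ → Bool} (hc : IF N (fun p : α × ℕ => c p.1 p.2)) :
    IP N (fun p : ℕ × α => Rea b p.1 (c p.2)) := by
  have hE := ip_Eb hb
  have hI := ip_isNum hb
  unfold Rea IsRea
  simp (maxDischargeDepth := 99) only [IP.all, IP.ex, IP.and, IP.imp, IP.iff, IP.eq, hE.comp2, hI.comp2,
    hc.comp2, IF.fst', IF.snd', IF.id, IF.const]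

variable {Θ : Type w} [WTy N Θ] [LinearOrder Θ]

theorem exists_N0 {t : ℕ → Bool} {c : Θ → ℕ → Bool} (hΘ : Nonempty Θ)
    (hA1 : ∀ b, IF N b → Tb b t → WellFounded (Jb b) → ∀ k x, Rea b k x → ∃ a, c a = x)
    {b : ℕ → Bool} (hb : IF N b) : ∃ a, N0 b t (c a) := by
  obtain ⟨a0⟩ := hΘ
  by_cases h1 : Tb (evS b) t
  swap
  · exact ⟨a0, Or.inl h1⟩
  by_cases h2 : WellFounded (Jb (evS b))
  swap
  · exact ⟨a0, Or.inr (Or.inl h2)⟩
  have he : IF N (evS b) := hb.comp (IF.mul (IF.const 2) IF.id)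
  by_cases h3 : ∃ k, odS b k = true ∧ IsRea (evS b) k
  · obtain ⟨k, hk, hr⟩ := h3
    obtain ⟨x, hx⟩ := exists_rea hr
    obtain ⟨a, ha⟩ := hA1 _ he h1 h2 k x hx
    exact ⟨a, Or.inr (Or.inr (Or.inl ⟨k, hk, ha ▸ hx⟩))⟩
  · obtain ⟨k, hk⟩ := exists_rea_emp h1
    obtain ⟨a, ha⟩ := hA1 _ he h1 h2 k _ hk
    exact ⟨a, Or.inr (Or.inr (Or.inr ⟨h3, ha⟩))⟩

theorem exists_b {t : ℕ → Bool} {c : Θ → ℕ → Bool} (hlt : IP N (fun p : Θ × Θ => p.1 < p.2))
    (hc : IF N (fun p : Θ × ℕ => c p.1 p.2))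
    (hA1 : ∀ b, IF N b → Tb b t → WellFounded (Jb b) → ∀ k x, Rea b k x → ∃ a, c a = x)
    (hA2 : ∀ γ : Θ, ∃ b, IF N b ∧ Tb b t ∧ WellFounded (Jb b) ∧ ∃ k x, Rea b k x ∧ ∀ a ≤ γ, c a ≠ x) (γ : Θ) :
    ∃ (b : ℕ → Bool) (s : ℕ → Θ), IF N b ∧ IF N s ∧ (∀ n, γ < s n) ∧ ∀ x, N0 b t x → ∃ n, c (s n) = x := by
  classical
  obtain ⟨b', hb', hT, hwf, k0, x0, hx0, hne⟩ := hA2 γ
  obtain ⟨a0, rfl⟩ := hA1 b' hb' hT hwf k0 x0 hx0
  have ha0 : γ < a0 := by
    by_contra h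
    exact hne a0 (not_lt.1 h) rfl
  have hR := ip_Rea hb' hc
  have hQ : IP N (fun p : ℕ × Θ => γ < p.2 ∧ Rea b' p.1 (c p.2)) :=
    IP.and (IP.comp2 (P := fun a a' : Θ => a < a') hlt (IF.const γ) IF.snd) hR
  have hQ' : IP N (fun k : ℕ => ∃ a, γ < a ∧ Rea b' k (c a)) := IP.ex hQ
  have hq : IF N (fun k : ℕ => decide (∃ a, γ < a ∧ Rea b' k (c a))) := by
    refine IF.ofP (Q := fun k y => (y = true ↔ ∃ a, γ < a ∧ Rea b' k (c a)))
      (IP.iff (IP.eq IF.snd (IF.const true)) (IP.comp (P := fun k : ℕ => ∃ a, γ < a ∧ Rea b' k (c a))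
        hQ' IF.fst)) fun k y => ?_
    by_cases h : ∃ a, γ < a ∧ Rea b' k (c a) <;> cases y <;> simp [h]
  obtain ⟨f, hf, hfQ⟩ := choice' (P := fun (k : ℕ) (a : Θ) => γ < a ∧ Rea b' k (c a)) hQ a0
  refine ⟨mgS b' (fun k => decide (∃ a, γ < a ∧ Rea b' k (c a))),
    fun k => if ∃ a, γ < a ∧ Rea b' k (c a) then f k else a0, ?_, IF.ite hQ' hf (IF.const a0), fun n => ?_,
    fun x hx => ?_⟩
  · refine IF.congr (fun n => ?_) (IF.ite (N := N) (P := fun n : ℕ => n % 2 = 0)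
      (IP.eq (IF.mod IF.id (IF.const 2)) (IF.const 0)) (hb'.comp (IF.div IF.id (IF.const 2)))
      (IF.comp hq (IF.div IF.id (IF.const 2))))
    unfold mgS
    by_cases h : n % 2 = 0 <;> simp [h]
  · show γ < if ∃ a, γ < a ∧ Rea b' n (c a) then f n else a0
    split_ifs with h
    · exact (hfQ n h).1
    · exact ha0
  · unfold N0 at hx
    rw [evS_mgS, odS_mgS] at hx
    rcases hx with hx | hx | ⟨k, hk, hx⟩ | ⟨hx, -⟩
    · exact absurd hT hx
    · exact absurd hwf hx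
    · have h1 : ∃ a, γ < a ∧ Rea b' k (c a) := of_decide_eq_true hk
      refine ⟨k, ?_⟩
      show c (if ∃ a, γ < a ∧ Rea b' k (c a) then f k else a0) = x
      rw [if_pos h1]
      exact rea_unique (hfQ k h1).2 hx
    · exact absurd ⟨k0, decide_eq_true ⟨a0, ha0, hx0⟩, hx0.1⟩ hx

end CPYD
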