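import Pool.Agent.LGr.Defs
import Pool.Agent.WCal.Br
import Pool.Agent.WCal.ReB
import Pool.Agent.WCal.Simp

/-! # Block D (principle H): native definitions

(problem MP_ba5606_gt, ARH Part II, block D; architect helper50; no sorry in this file)

All real numbers, sequences and codes are native. A point of `2^ω` is a function `ℕ → Bool`.

* `evS`, `odS`, `mgS`: the even part, the odd part of a sequence and the merged sequence.
* `IsRea b k`, `Rea b k x`: in the structure `(ℕ, Eb b)` all elements of `k` are natural numbers; and `x : 2^ω` is the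
  characteristic function of the set of natural numbers `k`.
* `N0 b t x`: here `b` codes the structure `evS b` and the set `{k | odS b k = true}` of elements of it. `N0 b t x` holds if the
  structure is not coherent for `t` (`LGr.Tb`), or its indices are not well-founded, or `x` is a real coded by an element of the
  set, or the set contains no code of a real and `x = 0`.
* `encB : List Bool → ℕ` injective; `Dec d c x`: the value `x k` is the eventual value of `d (pair k (c 0, ..., c (n - 1)))`.
* `Cut x y`, `y : ℕ → ℝ`: `x (pair n (qe q)) = true` iff `q < y n`. `Apx a y`: `a` codes fast rational approximations of `y`.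
* `NN b t d y`: `y` belongs to the set `N_b` of the design: some `c` with `N0 b t c` is decoded by `d` to a cut of `y`.
* `SS`: the set of all `(b, t, d, a)` such that some `y` with `Apx a y` satisfies `NN b t d y`; with all witnesses, as a
  projection of the Borel set `BB`. -/

set_option autoImplicit false

namespace CPYD

open WCal LGr

/-- the even part of a sequence -/
def evS {α : Type*} (v : ℕ → α) (n : ℕ) : α := v (2 * n)
/-- the odd part of a sequence -/
def odS {α : Type*} (v : ℕ → α) (n : ℕ) : α := v (2 * n + 1)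
/-- the sequence with the even part `x` and the odd part `y` -/
def mgS {α : Type*} (x y : ℕ → α) (n : ℕ) : α := if n % 2 = 0 then x (n / 2) else y (n / 2)

@[simp] theorem evS_mgS {α : Type*} (x y : ℕ → α) : evS (mgS x y) = x := by
  funext n
  have h1 : (2 * n) % 2 = 0 := by omega
  have h2 : 2 * n / 2 = n := by omega
  simp [evS, mgS]

@[simp] theorem odS_mgS {α : Type*} (x y : ℕ → α) : odS (mgS x y) = y := by
  funext n
  have h2 : (2 * n + 1) / 2 = n := by omega
  simp [odS, mgS, h2]

theorem mgS_evS_odS {α : Type*} (v : ℕ → α) : mgS (evS v) (odS v) = v := by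
  funext n
  unfold mgS
  split_ifs with h
  · change v (2 * (n / 2)) = v n
    congr 1
    omega
  · change v (2 * (n / 2) + 1) = v n
    congr 1
    omega

/-- `k` is a set of natural numbers in the structure coded by `b` -/
def IsRea (b : ℕ → Bool) (k : ℕ) : Prop := ∀ z, Eb b z k → ∃ n, isNum (Eb b) n z

/-- `k` is a set of natural numbers with the characteristic function `x` -/
def Rea (b : ℕ → Bool) (k : ℕ) (x : ℕ → Bool) : Prop :=
  IsRea b k ∧ ∀ n, x n = true ↔ ∃ z, isNum (Eb b) n z ∧ Eb b z k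

/-- the set `N0_b` -/
def N0 (b t x : ℕ → Bool) : Prop :=
  ¬ Tb (evS b) t ∨ ¬ WellFounded (Jb (evS b)) ∨ (∃ k, odS b k = true ∧ Rea (evS b) k x) ∨
    ((¬ ∃ k, odS b k = true ∧ IsRea (evS b) k) ∧ x = fun _ => false)

/-- the same with a witness `h` for the ill-foundedness -/
def N0w (b t x : ℕ → Bool) (h : ℕ → ℕ) : Prop :=
  ¬ Tb (evS b) t ∨ (∀ n, Jb (evS b) (h (n + 1)) (h n)) ∨ (∃ k, odS b k = true ∧ Rea (evS b) k x) ∨
    ((¬ ∃ k, odS b k = true ∧ IsRea (evS b) k) ∧ x = fun _ => false)

/-- the number of a list of truth values -/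
def encB (l : List Bool) : ℕ := Encodable.encode (l.map fun b : Bool => if b = true then 1 else 0)

/-- `x` is decoded from `c` by `d` -/
def Dec (d c x : ℕ → Bool) : Prop := ∀ k, ∃ n0, ∀ n ≥ n0, d (Nat.pair k (encB (ini c n))) = x k

/-- `x` is the sequence of the cuts of `y` -/
def Cut (x : ℕ → Bool) (y : ℕ → ℝ) : Prop := ∀ n (q : ℚ), x (Nat.pair n (qe q)) = true ↔ (q : ℝ) < y n

/-- `a` codes rational approximations of `y` -/
def Apx (a : ℕ → ℕ) (y : ℕ → ℝ) : Prop :=
  ∀ n j, |y n - ((qe.symm (a (Nat.pair n j)) : ℚ) : ℝ)| ≤ (1 / 2 : ℝ) ^ j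

/-- the set `N_b` -/
def NN (b t d : ℕ → Bool) (y : ℕ → ℝ) : Prop := ∃ c x, N0 b t c ∧ Dec d c x ∧ Cut x y

/-- the space of the `(b, t, d, a)` -/
abbrev XX : Type := (ℕ → Bool) × (ℕ → Bool) × (ℕ → Bool) × (ℕ → ℕ)

/-- the space of the witnesses `(c, h, x, y)` -/
abbrev YY : Type := (ℕ → Bool) × (ℕ → ℕ) × (ℕ → Bool) × (ℕ → ℝ)

/-- the Borel set -/
def BB : Set (XX × YY) :=
  {p | N0w p.1.1 p.1.2.1 p.2.1 p.2.2.1 ∧ Dec p.1.2.2.1 p.2.1 p.2.2.2.1 ∧ Cut p.2.2.2.1 p.2.2.2.2 ∧
    Apx p.1.2.2.2 p.2.2.2.2}

/-- the projection -/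
def SS : Set XX := {p | ∃ w : YY, (p, w) ∈ BB}

/-- the values of the five sequences at `i` -/
def tup (b t d : ℕ → Bool) (a v : ℕ → ℕ) (i : ℕ) : Bool × Bool × Bool × ℕ × ℕ := (b i, t i, d i, a i, v i)

/-- the approximations of a set of points -/
def Tre (F : Set (XX × (ℕ → ℕ))) (l : List (Bool × Bool × Bool × ℕ × ℕ)) : Prop :=
  ∃ b t d a v, ((b, t, d, a), v) ∈ F ∧ l = ini (tup b t d a v) l.length

/-- the number of a tuple -/
def encT (p : Bool × Bool × Bool × ℕ × ℕ) : ℕ :=
  Nat.pair (if p.1 = true then 1 else 0) (Nat.pair (if p.2.1 = true then 1 else 0)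
    (Nat.pair (if p.2.2.1 = true then 1 else 0) (Nat.pair p.2.2.2.1 p.2.2.2.2)))

end CPYD
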