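import Pool.Agent.CPY.D.Clo
import Pool.Agent.CPY.D.Abs

/-! # Block D: numbers of lists are internal

(problem MP_ba5606_gt, ARH Part II, block D; architect helper50; 0.8 h; other files are black boxes)

PROOFS.
* `if_encB`: `IF.map` (the map `Bool → ℕ` is internal: `IF.finite`, composed with the projection), `IF.encodeList`. `encB_inj`:
  `Encodable.encode` is injective, `List.map` of an injective map is injective.
* `exists_decB`: `decB m := if h : ∃ l, encB l = m then h.choose else []`; its graph is `encB l = m ∨ ((∀ l', encB l' ≠ m) ∧ l = [])` (`IF.ofP`).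
* `ip_T2`: `l ↦ l.map encT` is an internal injective function on lists of tuples (`IF.map`; the function `encT` is internal by
  `IF.npair`, `IF.ite` or `IF.finite` composed with projections; `encT` is injective), so `T2 l ↔ T2c (l.map encT) [] []`; `IP.comp`.
* `exists_conv`: `d m := d0 (unpair m).1 (decB (unpair m).2)`, so `d (pair k (encB l)) = d0 k l`.
* `exists_cut`: `x a m := decide ((qe.symm (unpair m).2 : ℝ) < r a (unpair m).1)`; the graph is
  `(y = true ↔ (qe.symm (unpair m).2 : ℝ) < r a (unpair m).1)`, with `IP.ltR`, `IR.rat`; the function `qe.symm : ℕ → ℚ` is internal: `if_qes`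
  (the codes of `q` and of the number `qe q` are the same: `IP.of_sat` as in `IF.id`, or `IF.inv` from `if_qe`, which is proved
  in the same way). Then `Cut (x a) (r a)` by `Nat.unpair_pair`, `Equiv.symm_apply_apply`. -/

set_option autoImplicit false

universe u v w

namespace CPYD

open WCal WM

/-- the predicate `T2` as a predicate on lists of natural numbers -/
def T2c (l _ _ : List ℕ) : Prop := ∃ l', l'.map encT = l ∧ T2 l'

private theorem b2n_inj : Function.Injective fun b : Bool => if b = true then (1 : ℕ) else 0 := by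
  intro a b
  cases a <;> cases b <;> simp

theorem encB_inj : Function.Injective encB :=
  Encodable.encode_injective.comp (List.map_injective_iff.2 b2n_inj)

theorem encT_inj : Function.Injective encT := by
  rintro ⟨a, b, c, m, n⟩ ⟨a', b', c', m', n'⟩ h
  simp only [encT, Nat.pair_eq_pair] at h
  obtain ⟨h1, h2, h3, rfl, rfl⟩ := h
  have e1 := b2n_inj h1
  have e2 := b2n_inj h2
  have e3 := b2n_inj h3
  subst e1 e2 e3
  rfl

section

variable {N : Type u} [WM N] {α : Type v} [WTy N α]

private theorem if_b2n {f : α → Bool} (hf : IF N f) :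
    IF N (fun a => if f a = true then (1 : ℕ) else 0) :=
  IF.comp (g := fun b : Bool => if b = true then (1 : ℕ) else 0) (IF.finite _) hf

theorem if_encB {l : α → List Bool} (hl : IF N l) : IF N (fun a => encB (l a)) :=
  IF.encodeList (IF.map (if_b2n IF.snd) hl)

variable (N) in
theorem exists_decB : ∃ decB : ℕ → List Bool, IF N decB ∧ ∀ l, decB (encB l) = l := by
  classical
  have h1 : ∀ m, ∃ l : List Bool, encB l = m ∨ ((∀ l', encB l' ≠ m) ∧ l = []) := by
    intro m
    by_cases h : ∃ l, encB l = m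
    · exact ⟨h.choose, Or.inl h.choose_spec⟩
    · exact ⟨[], Or.inr ⟨fun l' hl => h ⟨l', hl⟩, rfl⟩⟩
  choose decB hdec using h1
  refine ⟨decB, IF.ofP (Q := fun m l => encB l = m ∨ ((∀ l', encB l' ≠ m) ∧ l = [])) ?_ ?_, fun l => ?_⟩
  · refine IP.or (IP.eq (if_encB IF.snd) IF.fst) (IP.and ?_ (IP.eq IF.snd (IF.const _)))
    exact IP.all (P := fun (p : ℕ × List Bool) (l' : List Bool) => encB l' ≠ p.1)
      (IP.not (IP.eq (if_encB IF.snd) (IF.fst' IF.fst)))
  · intro m l
    constructor
    · intro h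
      rcases h with h | ⟨h, rfl⟩ <;> rcases hdec m with h' | ⟨h', h2⟩
      · exact encB_inj (h'.trans h.symm)
      · exact absurd h (h' l)
      · exact absurd h' (h _)
      · exact h2
    · rintro rfl
      exact hdec m
  · rcases hdec (encB l) with h | ⟨h, -⟩
    · exact encB_inj h
    · exact absurd rfl (h l)

theorem if_qes {f : α → ℕ} (hf : IF N f) : IF N (fun a => qe.symm (f a)) := by
  have h : IF N (fun n : ℕ => qe.symm n) := by
    obtain ⟨s, hs⟩ := (IF.id : IF N (fun a : ℕ => a))
    refine ⟨s, fun p => ?_⟩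
    have h1 := hs (p.1, qe p.2)
    exact (Equiv.symm_apply_eq qe).trans h1
  exact IF.comp h hf

theorem if_qe {f : α → ℚ} (hf : IF N f) : IF N (fun a => qe (f a)) := by
  have h : IF N (fun q : ℚ => qe q) := by
    obtain ⟨s, hs⟩ := (IF.id : IF N (fun a : ℕ => a))
    exact ⟨s, fun p => hs (qe p.1, p.2)⟩
  exact IF.comp h hf

theorem ip_T2 (h : IP N (fun p : List ℕ × List ℕ × List ℕ => T2c p.1 p.2.1 p.2.2)) : IP N T2 := by
  have h1 : IF N (fun p : List (Bool × Bool × Bool × ℕ × ℕ) × (Bool × Bool × Bool × ℕ × ℕ) =>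
      encT p.2) := by
    unfold encT
    exact IF.npair (if_b2n (IF.fst' IF.snd)) (IF.npair (if_b2n (IF.fst' (IF.snd' IF.snd)))
      (IF.npair (if_b2n (IF.fst' (IF.snd' (IF.snd' IF.snd))))
        (IF.npair (IF.fst' (IF.snd' (IF.snd' (IF.snd' IF.snd))))
          (IF.snd' (IF.snd' (IF.snd' (IF.snd' IF.snd)))))))
  have h2 : IF N (fun l : List (Bool × Bool × Bool × ℕ × ℕ) => (l.map encT, (([] : List ℕ), ([] : List ℕ)))) :=
    IF.pair (IF.map (f := fun _ => encT) h1 IF.id) (IF.const _)
  refine IP.congr (fun l => ?_) (IP.comp h h2)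
  constructor
  · rintro ⟨l', h3, h4⟩
    rwa [List.map_injective_iff.2 encT_inj h3] at h4
  · intro h3
    exact ⟨l, rfl, h3⟩

theorem exists_conv {d0 : ℕ → List Bool → Bool} (h : IF N (fun p : ℕ × List Bool => d0 p.1 p.2)) :
    ∃ d : ℕ → Bool, IF N d ∧ ∀ k l, d (Nat.pair k (encB l)) = d0 k l := by
  obtain ⟨decB, h1, h2⟩ := exists_decB N
  refine ⟨fun m => d0 (Nat.unpair m).1 (decB (Nat.unpair m).2),
    h.comp2 (IF.unpair1 IF.id) (h1.comp (IF.unpair2 IF.id)), fun k l => ?_⟩
  simp only [Nat.unpair_pair, h2]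

theorem exists_cut [Std N] {r : α → ℕ → ℝ} (hr : IR N (fun p : α × ℕ => r p.1 p.2)) :
    ∃ x : α → ℕ → Bool, IF N (fun p : α × ℕ => x p.1 p.2) ∧ ∀ a, Cut (x a) (r a) := by
  classical
  refine ⟨fun a m => decide (((qe.symm (Nat.unpair m).2 : ℚ) : ℝ) < r a (Nat.unpair m).1),
    IF.ofP (Q := fun p y => (y = true ↔ ((qe.symm (Nat.unpair p.2).2 : ℚ) : ℝ) < r p.1 (Nat.unpair p.2).1))
      ?_ ?_, fun a n q => ?_⟩
  · refine IP.iff (IP.eq IF.snd (IF.const true)) (IP.ltR (IR.rat (if_qes (IF.unpair2 (IF.snd' IF.fst)))) ?_)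
    exact IR.comp hr (IF.pair (IF.fst' IF.fst) (IF.unpair1 (IF.snd' IF.fst)))
  · intro p y
    by_cases h : ((qe.symm (Nat.unpair p.2).2 : ℚ) : ℝ) < r p.1 (Nat.unpair p.2).1 <;> cases y <;>
      simp [h]
  · simp only [Nat.unpair_pair, Equiv.symm_apply_apply, decide_eq_true_iff]

end

end CPYD
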