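import Pool.Agent.CPY.D.Enc

/-! # Block D: internal witnesses (F1)

(problem MP_ba5606_gt, ARH Part II, block D; architect helper50; 0.8 h; other files are black boxes)

PROOF. `exists_apx` gives a native `a` with `Apx a y`, `F2_of_NN` a native `v'` with `((b, t, d, a), v') ∈ F2`. Apply `branch_abs`
(`α := ℕ × ℕ`) to the native sequence `z i := (a i, v' i)`, `g m := m` and the condition
`P m z := T2 ((List.range m).map fun i => (b i, t i, d i, (z i).1, (z i).2)) ∧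
  ∀ n j, Nat.pair n j < m → |y n - (qe.symm (z (Nat.pair n j)).1 : ℝ)| ≤ (1/2)^j`
(internal: `IF.rangeMap`, `hT.comp`; `IP.leR`, `IR.abs`, `IR.sub`, `hy.comp`, `IR.rat`, `if_qes`, `IR.half_pow`; evaluation `IF.app`).
The internal sequence `z'` gives `a' := fst ∘ z'`, `v'' := snd ∘ z'`; by `F2_iff` the point `((b, t, d, a'), v'')` is in `F2`, and `Apx a' y`. Let
`v := mgS a' v''` (internal: `IF.ite`, `IF.mod`, `IF.div`); `evS v = a'`, `odS v = v''`. -/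

set_option autoImplicit false

universe u v w

namespace CPYD

open WCal WM

variable {N : Type u} [WM N] [Std N]

private def f1L (b t d : ℕ → Bool) (z : ℕ → ℕ × ℕ) (m : ℕ) : List (Bool × Bool × Bool × ℕ × ℕ) :=
  (List.range m).map fun i => (b i, t i, d i, (z i).1, (z i).2)

private def f1P (b t d : ℕ → Bool) (y : ℕ → ℝ) (m : ℕ) (z : ℕ → ℕ × ℕ) : Prop :=
  T2 (f1L b t d z m) ∧
    ∀ n j, Nat.pair n j < m → |y n - ((qe.symm (z (Nat.pair n j)).1 : ℚ) : ℝ)| ≤ (1 / 2 : ℝ) ^ j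

omit [Std N] in
private theorem f1_i1 (hT : IP N T2) {b t d : ℕ → Bool} (hb : IF N b) (ht : IF N t)
    (hd : IF N d) : IP N (fun p : ℕ × Fn N ℕ (ℕ × ℕ) => T2 (f1L b t d p.2 p.1)) := by
  refine IP.comp hT (IF.rangeMap (x := fun (p : ℕ × Fn N ℕ (ℕ × ℕ)) i =>
    (b i, t i, d i, (p.2 i).1, (p.2 i).2)) ?_ IF.fst)
  have he : IF N (fun q : (ℕ × Fn N ℕ (ℕ × ℕ)) × ℕ => q.1.2 q.2) :=
    IF.app (IF.snd' IF.fst) IF.snd
  exact (hb.comp IF.snd).pair ((ht.comp IF.snd).pair ((hd.comp IF.snd).pair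
    ((IF.fst' he).pair (IF.snd' he))))

private theorem f1_i2 {y : ℕ → ℝ} (hy : IR N y) :
    IP N (fun p : ℕ × Fn N ℕ (ℕ × ℕ) => ∀ n j, Nat.pair n j < p.1 →
      |y n - ((qe.symm (p.2 (Nat.pair n j)).1 : ℚ) : ℝ)| ≤ (1 / 2 : ℝ) ^ j) := by
  refine IP.all (P := fun (p : ℕ × Fn N ℕ (ℕ × ℕ)) (n : ℕ) => ∀ j, Nat.pair n j < p.1 →
    |y n - ((qe.symm (p.2 (Nat.pair n j)).1 : ℚ) : ℝ)| ≤ (1 / 2 : ℝ) ^ j) ?_
  refine IP.all (P := fun (p : (ℕ × Fn N ℕ (ℕ × ℕ)) × ℕ) (j : ℕ) => Nat.pair p.2 j < p.1.1 →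
    |y p.2 - ((qe.symm (p.1.2 (Nat.pair p.2 j)).1 : ℚ) : ℝ)| ≤ (1 / 2 : ℝ) ^ j) ?_
  have hn : IF N (fun p : ((ℕ × Fn N ℕ (ℕ × ℕ)) × ℕ) × ℕ => Nat.pair p.1.2 p.2) :=
    IF.npair (IF.snd' IF.fst) IF.snd
  have he : IF N (fun p : ((ℕ × Fn N ℕ (ℕ × ℕ)) × ℕ) × ℕ => p.1.1.2 (Nat.pair p.1.2 p.2)) :=
    IF.app (IF.snd' (IF.fst' IF.fst)) hn
  have h1 : IR N (fun p : ((ℕ × Fn N ℕ (ℕ × ℕ)) × ℕ) × ℕ => y p.1.2) :=
    IR.comp (f := y) (g := fun p : ((ℕ × Fn N ℕ (ℕ × ℕ)) × ℕ) × ℕ => p.1.2) hy (IF.snd' IF.fst)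
  have h2 : IR N (fun p : ((ℕ × Fn N ℕ (ℕ × ℕ)) × ℕ) × ℕ =>
      ((qe.symm (p.1.1.2 (Nat.pair p.1.2 p.2)).1 : ℚ) : ℝ)) := IR.rat (if_qes (IF.fst' he))
  have h3 : IR N (fun p : ((ℕ × Fn N ℕ (ℕ × ℕ)) × ℕ) × ℕ => (1 / 2 : ℝ) ^ p.2) :=
    IR.half_pow IF.snd
  have h4 := IP.leR (IR.abs (IR.sub h1 h2)) h3
  exact IP.imp (IP.lt hn (IF.fst' (IF.fst' IF.fst))) h4

private theorem f1_loc {b t d : ℕ → Bool} {y : ℕ → ℝ} (m : ℕ) (z z' : ℕ → ℕ × ℕ)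
    (hzz : ∀ i < m, z i = z' i) (hz : f1P b t d y m z) : f1P b t d y m z' := by
  have h1 : f1L b t d z' m = f1L b t d z m :=
    List.map_congr_left fun i hi => by rw [hzz i (List.mem_range.1 hi)]
  refine ⟨?_, fun n j hn => ?_⟩
  · rw [h1]
    exact hz.1
  · rw [← hzz _ hn]
    exact hz.2 n j hn

private theorem f1_ini (b t d : ℕ → Bool) (z : ℕ → ℕ × ℕ) (m : ℕ) :
    f1L b t d z m = ini (tup b t d (fun i => (z i).1) (fun i => (z i).2)) m := rfl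

omit [Std N] in
private theorem f1_mg {α : Type*} [WTy N α] {x y : ℕ → α} (hx : IF N x) (hy : IF N y) :
    IF N (mgS x y) := by
  have h1 : IF N (fun n : ℕ => x (n / 2)) := hx.comp (IF.div IF.id (IF.const 2))
  have h2 : IF N (fun n : ℕ => y (n / 2)) := hy.comp (IF.div IF.id (IF.const 2))
  have h3 : IP N (fun n : ℕ => n % 2 = 0) := IP.eq (IF.mod IF.id (IF.const 2)) (IF.const 0)
  exact IF.congr (fun n => by unfold mgS; congr) (IF.ite h3 h1 h2)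

theorem exists_int (hT : IP N T2) {b t d : ℕ → Bool} (hb : IF N b) (ht : IF N t) (hd : IF N d)
    {y : ℕ → ℝ} (hy : IR N y) (h : NN b t d y) : ∃ v : ℕ → ℕ, IF N v ∧ (b, y, v) ∈ FF t d := by
  obtain ⟨a, ha⟩ := exists_apx y
  obtain ⟨v', hv'⟩ := F2_of_NN h ha
  have hP : IP N (fun p : ℕ × Fn N ℕ (ℕ × ℕ) => f1P b t d y p.1 p.2) :=
    IP.and (f1_i1 hT hb ht hd) (f1_i2 hy)
  have hz0 : ∀ m, f1P b t d y m (fun i => (a i, v' i)) := by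
    intro m
    refine ⟨?_, fun n j _ => ha n j⟩
    rw [f1_ini]
    exact (F2_iff b t d a v').1 hv' m
  obtain ⟨z', hz', hz⟩ := branch_abs (g := fun m => m) (P := f1P b t d y) IF.id hP
    (fun m z z' hzz h => f1_loc m z z' hzz h) (fun i => (a i, v' i)) hz0
  refine ⟨mgS (fun i => (z' i).1) (fun i => (z' i).2), f1_mg (IF.fst' hz') (IF.snd' hz'), ?_⟩
  unfold FF
  rw [Set.mem_ofPred_eq, evS_mgS, odS_mgS]
  refine ⟨?_, ?_⟩
  · rw [F2_iff]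
    intro m
    have := (hz m).1
    rwa [f1_ini] at this
  · exact fun n j => (hz (Nat.pair n j + 1)).2 n j (Nat.lt_succ_self _)

end CPYD
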