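import Pool.Agent.CPY.D.Enc
import Pool.Agent.CPY.EDefs
import Pool.Agent.WCal.SimpR

/-! # Block D: the tree of `FF t d` is internal (F0)

(problem MP_ba5606_gt, ARH Part II, block D; architect helper50; 1.4 h; other files are black boxes)

PROOF. Let `k := s.length`. CLAIM: `TF (FF t d) u w s` is equivalent to
`u.length = k ∧ w.length = k ∧ ∃ ε : ℚ, 0 < ε ∧ ∃ z : Fn N ℕ (Bool × ℕ), ∀ m, P u w s ε m z`, where `P u w s ε m z` is the conjunction of
(1) `T2 ((List.range m).map fun i => ((z i).1, t i, d i, (z (2 * i)).2, (z (2 * i + 1)).2))`;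
(2) `∀ n j j', Nat.pair n j < m → Nat.pair n j' < m → |q (n, j) - q (n, j')| ≤ (1/2)^j + (1/2)^j'`, with
    `q (n, j) := (qe.symm (z (2 * Nat.pair n j)).2 : ℝ)`;
(3) `∀ i j, i < k → Nat.pair i j < m → |q (i, j) - w.getD i 0| ≤ (1/2)^k - ε + (1/2)^j`;
(4) `∀ i, i < k → i < m → (z i).1 = u.getD i false ∧ (z i).2 = s.getD i 0`.
The right side is an internal predicate of `(u, w, s)` (closure lemmas; `l.getD i a` is `(l[i]?).elim a id`: `IF.optElim`, `IF.getElem?`; the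
inequalities by `IP.leR`, `IP.ltR`, `IR.abs`, `IR.sub`, `IR.add`, `IR.rat`, `IR.half_pow`, `if_qes`; (1) by `IF.rangeMap`, `hT.comp`; the
quantifier over `Fn N ℕ (Bool × ℕ)` is a quantifier over a type of the model, evaluation by `IF.app`).
`←`: `z` is a native sequence, `b i := (z i).1`, `v i := (z i).2`. By (1) and `F2_iff` the point `((b, t, d, evS v), odS v)` is in `F2`; by (2) and
`exists_lim` there is `y` with `Apx (evS v) y`; so `(b, y, v) ∈ FF t d`. From (3), letting `j → ∞`: `|y i - w i| ≤ (1/2)^k - ε < (1/2)^k`.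
`→`: let `(b, y, v) ∈ FF t d` be as in `TF`. There is a rational `ε > 0` with `|y i - w i| ≤ (1/2)^k - ε` for all `i < k` (finitely many strict
inequalities). The native sequence `z i := (b i, v i)` satisfies all `P u w s ε m` ((2) and (3) by the triangle inequality from `Apx`). Now
`branch_abs` with `g m := 2 * m + 1` gives an internal sequence, that is an element of `Fn N ℕ (Bool × ℕ)` (each of (1)-(4) involves only
values `z i` with `i ≤ 2 * m`; for (2), (3) the index is `2 * Nat.pair n j < 2 * m`).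
Prove the internality of `P` first as a statement about the tuple `(u, w, s, ε, m, z)` (one lemma for each of (1)-(4)); it gives the
hypothesis of `branch_abs` (for fixed `u w s ε`) and the internality of the right side. -/

set_option autoImplicit false

universe u v w

namespace CPYD

open WCal WM

variable {N : Type u} [WM N] [Std N]

/-- the rational numbers coded by the even part -/
private noncomputable def qq (z : ℕ → Bool × ℕ) (n j : ℕ) : ℝ :=
  ((qe.symm (z (2 * Nat.pair n j)).2 : ℚ) : ℝ)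

/-- the conditions on the sequence `z` -/
private def PP (t d : ℕ → Bool) (u : List Bool) (w : List ℚ) (s : List ℕ) (ε : ℚ) (m : ℕ)
    (z : ℕ → Bool × ℕ) : Prop :=
  T2 ((List.range m).map fun i => ((z i).1, t i, d i, (z (2 * i)).2, (z (2 * i + 1)).2)) ∧
  (∀ n j j', Nat.pair n j < m → Nat.pair n j' < m →
    |qq z n j - qq z n j'| ≤ (1 / 2 : ℝ) ^ j + (1 / 2 : ℝ) ^ j') ∧
  (∀ i j, i < s.length → Nat.pair i j < m →
    |qq z i j - ((w.getD i 0 : ℚ) : ℝ)| ≤ (1 / 2 : ℝ) ^ s.length - (ε : ℝ) + (1 / 2 : ℝ) ^ j) ∧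
  ∀ i, i < s.length → i < m → (z i).1 = u.getD i false ∧ (z i).2 = s.getD i 0

section int

variable {γ : Type w} [WTy N γ]

omit [Std N] in
private theorem if_getD {α : Type v} [WTy N α] {l : γ → List α} {i : γ → ℕ} (hl : IF N l)
    (hi : IF N i) (b : α) : IF N (fun a => (l a).getD (i a) b) := by
  have h := IF.optElim (g := fun (_ : γ) (x : α) => x) (IF.getElem? hl hi) (IF.const b)
    (IF.snd (N := N) (α := γ) (β := α))
  refine IF.congr (fun a => ?_) h
  rw [List.getD_eq_getElem?_getD]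
  cases (l a)[i a]? <;> rfl

omit [Std N] in
private theorem if_z2 {z : γ → Fn N ℕ (Bool × ℕ)} (hz : IF N z) {i : γ → ℕ} (hi : IF N i) :
    IF N (fun a => ((z a).f (i a)).2) :=
  IF.snd' (IF.app hz hi)

private theorem ir_qq {z : γ → Fn N ℕ (Bool × ℕ)} (hz : IF N z) {n j : γ → ℕ} (hn : IF N n)
    (hj : IF N j) : IR N (fun a => qq (z a).f (n a) (j a)) :=
  IR.rat (if_qes (if_z2 hz (IF.mul (IF.const 2) (IF.npair hn hj))))

omit [Std N] in
private theorem if_p1 {t d : ℕ → Bool} (ht : IF N t) (hd : IF N d) {m : γ → ℕ} (hm : IF N m)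
    {z : γ → Fn N ℕ (Bool × ℕ)} (hz : IF N z) :
    IF N (fun a => (List.range (m a)).map fun i => (((z a).f i).1, t i, d i, ((z a).f (2 * i)).2,
      ((z a).f (2 * i + 1)).2)) := by
  refine IF.rangeMap (x := fun (a : γ) (i : ℕ) => (((z a).f i).1, t i, d i, ((z a).f (2 * i)).2,
      ((z a).f (2 * i + 1)).2)) ?_ hm
  have h1 : IF N (fun p : γ × ℕ => (z p.1).f p.2) := IF.app (IF.comp hz IF.fst) IF.snd
  have h2 : IF N (fun p : γ × ℕ => 2 * p.2) := IF.mul (IF.const 2) IF.snd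
  exact IF.pair (IF.fst' h1) (IF.pair (IF.comp ht IF.snd) (IF.pair (IF.comp hd IF.snd)
    (IF.pair (if_z2 (IF.comp hz IF.fst) h2) (if_z2 (IF.comp hz IF.fst) (IF.succ h2)))))

private theorem ip_PP (hT : IP N T2) {t d : ℕ → Bool} (ht : IF N t) (hd : IF N d)
    {u : γ → List Bool} (hu : IF N u) {w : γ → List ℚ} (hw : IF N w) {s : γ → List ℕ} (hs : IF N s)
    {ε : γ → ℚ} (hε : IF N ε) {m : γ → ℕ} (hm : IF N m) {z : γ → Fn N ℕ (Bool × ℕ)} (hz : IF N z) :
    IP N (fun a => PP t d (u a) (w a) (s a) (ε a) (m a) (z a).f) := by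
  refine IP.and (IP.comp hT (if_p1 ht hd hm hz)) (IP.and ?_ (IP.and ?_ ?_))
  · refine IP.all (P := fun (a : γ) (n : ℕ) => ∀ j j', Nat.pair n j < m a → Nat.pair n j' < m a →
      |qq (z a).f n j - qq (z a).f n j'| ≤ (1 / 2 : ℝ) ^ j + (1 / 2 : ℝ) ^ j') ?_
    refine IP.all (P := fun (p : γ × ℕ) (j : ℕ) => ∀ j', Nat.pair p.2 j < m p.1 →
      Nat.pair p.2 j' < m p.1 →
      |qq (z p.1).f p.2 j - qq (z p.1).f p.2 j'| ≤ (1 / 2 : ℝ) ^ j + (1 / 2 : ℝ) ^ j') ?_
    refine IP.all (P := fun (p : (γ × ℕ) × ℕ) (j' : ℕ) => Nat.pair p.1.2 p.2 < m p.1.1 →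
      Nat.pair p.1.2 j' < m p.1.1 →
      |qq (z p.1.1).f p.1.2 p.2 - qq (z p.1.1).f p.1.2 j'| ≤
        (1 / 2 : ℝ) ^ p.2 + (1 / 2 : ℝ) ^ j') ?_
    have h1 : IF N (fun p : ((γ × ℕ) × ℕ) × ℕ => p.1.1.1) := IF.fst' (IF.fst' IF.fst)
    have h2 : IF N (fun p : ((γ × ℕ) × ℕ) × ℕ => p.1.1.2) := IF.snd' (IF.fst' IF.fst)
    have h3 : IF N (fun p : ((γ × ℕ) × ℕ) × ℕ => p.1.2) := IF.snd' IF.fst
    have h4 : IF N (fun p : ((γ × ℕ) × ℕ) × ℕ => p.2) := IF.snd
    have hm' := IF.comp hm h1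
    have hz' := IF.comp hz h1
    exact IP.imp (IP.lt (IF.npair h2 h3) hm') (IP.imp (IP.lt (IF.npair h2 h4) hm')
      (IP.leR (IR.abs (IR.sub (ir_qq hz' h2 h3) (ir_qq hz' h2 h4)))
        (IR.add (IR.half_pow h3) (IR.half_pow h4))))
  · refine IP.all (P := fun (a : γ) (i : ℕ) => ∀ j, i < (s a).length → Nat.pair i j < m a →
      |qq (z a).f i j - (((w a).getD i 0 : ℚ) : ℝ)| ≤
        (1 / 2 : ℝ) ^ (s a).length - (ε a : ℝ) + (1 / 2 : ℝ) ^ j) ?_
    refine IP.all (P := fun (p : γ × ℕ) (j : ℕ) => p.2 < (s p.1).length → Nat.pair p.2 j < m p.1 →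
      |qq (z p.1).f p.2 j - (((w p.1).getD p.2 0 : ℚ) : ℝ)| ≤
        (1 / 2 : ℝ) ^ (s p.1).length - (ε p.1 : ℝ) + (1 / 2 : ℝ) ^ j) ?_
    have h1 : IF N (fun p : (γ × ℕ) × ℕ => p.1.1) := IF.fst' IF.fst
    have h2 : IF N (fun p : (γ × ℕ) × ℕ => p.1.2) := IF.snd' IF.fst
    have h3 : IF N (fun p : (γ × ℕ) × ℕ => p.2) := IF.snd
    have hm' := IF.comp hm h1
    have hz' := IF.comp hz h1
    have hs' := IF.length (IF.comp hs h1)
    exact IP.imp (IP.lt h2 hs') (IP.imp (IP.lt (IF.npair h2 h3) hm')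
      (IP.leR (IR.abs (IR.sub (ir_qq hz' h2 h3) (IR.rat (if_getD (IF.comp hw h1) h2 0))))
        (IR.add (IR.sub (IR.half_pow hs') (IR.rat (IF.comp hε h1))) (IR.half_pow h3))))
  · refine IP.all (P := fun (a : γ) (i : ℕ) => i < (s a).length → i < m a →
      ((z a).f i).1 = (u a).getD i false ∧ ((z a).f i).2 = (s a).getD i 0) ?_
    have h1 : IF N (fun p : γ × ℕ => p.1) := IF.fst
    have h2 : IF N (fun p : γ × ℕ => p.2) := IF.snd
    have hz' := IF.app (IF.comp hz h1) h2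
    exact IP.imp (IP.lt h2 (IF.length (IF.comp hs h1))) (IP.imp (IP.lt h2 (IF.comp hm h1))
      (IP.and (IP.eq (IF.fst' hz') (if_getD (IF.comp hu h1) h2 false))
        (IP.eq (IF.snd' hz') (if_getD (IF.comp hs h1) h2 0))))

end int

private theorem PP_loc {t d : ℕ → Bool} {u : List Bool} {w : List ℚ} {s : List ℕ} {ε : ℚ} {m : ℕ}
    {z z' : ℕ → Bool × ℕ} (h : ∀ i < 2 * m + 1, z i = z' i) (hP : PP t d u w s ε m z) :
    PP t d u w s ε m z' := by
  have hq : ∀ n j, Nat.pair n j < m → qq z n j = qq z' n j := by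
    intro n j hnj
    unfold qq
    rw [h _ (by omega)]
  obtain ⟨h1, h2, h3, h4⟩ := hP
  refine ⟨?_, fun n j j' hj hj' => ?_, fun i j hi hj => ?_, fun i hi hm => ?_⟩
  · have h5 : ((List.range m).map fun i => ((z i).1, t i, d i, (z (2 * i)).2, (z (2 * i + 1)).2)) =
        (List.range m).map fun i => ((z' i).1, t i, d i, (z' (2 * i)).2, (z' (2 * i + 1)).2) := by
      refine List.map_congr_left fun i hi => ?_
      have hi' := List.mem_range.1 hi
      rw [h i (by omega), h (2 * i) (by omega), h (2 * i + 1) (by omega)]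
    rw [← h5]
    exact h1
  · rw [← hq n j hj, ← hq n j' hj']
    exact h2 n j j' hj hj'
  · rw [← hq i j hj]
    exact h3 i j hi hj
  · rw [← h i (by omega)]
    exact h4 i hi hm

private theorem eps_aux {k : ℕ} (f : ℕ → ℝ) {r : ℝ} (h : ∀ i < k, f i < r) :
    ∃ ε : ℚ, 0 < ε ∧ ∀ i < k, f i ≤ r - ε := by
  induction k with
  | zero => exact ⟨1, one_pos, fun i hi => absurd hi (Nat.not_lt_zero i)⟩
  | succ k ih =>
    obtain ⟨ε, hε, h1⟩ := ih fun i hi => h i (by omega)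
    obtain ⟨δ, hδ, hδ'⟩ := exists_rat_btwn (sub_pos.2 (h k (by omega)))
    have hδ0 : (0 : ℚ) < δ := by exact_mod_cast hδ
    refine ⟨min ε δ, lt_min hε hδ0, fun i hi => ?_⟩
    have h2 : ((min ε δ : ℚ) : ℝ) ≤ ε := by exact_mod_cast min_le_left ε δ
    have h3 : ((min ε δ : ℚ) : ℝ) ≤ δ := by exact_mod_cast min_le_right ε δ
    rcases Nat.lt_succ_iff_lt_or_eq.1 hi with h4 | rfl
    · have := h1 i h4
      linarith
    · linarith

private theorem half_tendsto : Filter.Tendsto (fun j : ℕ => (1 / 2 : ℝ) ^ j) Filter.atTop (nhds 0) :=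
  tendsto_pow_atTop_nhds_zero_of_lt_one (by norm_num) (by norm_num)

/-- approximations converge -/
private theorem lim_le {a : ℕ → ℕ} {y : ℕ → ℝ} (hy : Apx a y) {n : ℕ} {c r : ℝ}
    (h : ∀ j, |((qe.symm (a (Nat.pair n j)) : ℚ) : ℝ) - c| ≤ r + (1 / 2 : ℝ) ^ j) :
    |y n - c| ≤ r := by
  have h1 : ∀ j, |y n - c| ≤ r + 2 * (1 / 2 : ℝ) ^ j := by
    intro j
    have h2 := hy n j
    have h3 := h j
    have h4 : y n - c = (y n - ((qe.symm (a (Nat.pair n j)) : ℚ) : ℝ)) +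
        (((qe.symm (a (Nat.pair n j)) : ℚ) : ℝ) - c) := by ring
    rw [h4]
    refine (abs_add_le _ _).trans ?_
    linarith
  have h5 : Filter.Tendsto (fun j : ℕ => r + 2 * (1 / 2 : ℝ) ^ j) Filter.atTop
      (nhds (r + 2 * 0)) := (half_tendsto.const_mul 2).const_add r
  rw [mul_zero, add_zero] at h5
  exact ge_of_tendsto' h5 h1

private theorem TF_iff (hT : IP N T2) {t d : ℕ → Bool} (ht : IF N t) (hd : IF N d)
    (u : List Bool) (w : List ℚ) (s : List ℕ) :
    CPY.TF (FF t d) u w s ↔ u.length = s.length ∧ w.length = s.length ∧ ∃ ε : ℚ, 0 < ε ∧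
      ∃ z : Fn N ℕ (Bool × ℕ), ∀ m, PP t d u w s ε m z.f := by
  constructor
  · rintro ⟨hu, hw, b, y, v, ⟨hF, hA⟩, hi⟩
    refine ⟨hu, hw, ?_⟩
    obtain ⟨ε, hε, hε'⟩ := eps_aux (k := s.length) (fun i => |y i - ((w.getD i 0 : ℚ) : ℝ)|)
      (r := (1 / 2 : ℝ) ^ s.length) (fun i h => (hi i h).2.1)
    refine ⟨ε, hε, ?_⟩
    have hPP : ∀ m, PP t d u w s ε m (fun i => (b i, v i)) := by
      intro m
      refine ⟨?_, fun n j j' _ _ => ?_, fun i j hi' _ => ?_, fun i hi' _ => ⟨(hi i hi').1, (hi i hi').2.2⟩⟩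
      · exact (F2_iff b t d (evS v) (odS v)).1 hF m
      · have h1 := hA n j
        have h2 := hA n j'
        have h3 : qq (fun i => (b i, v i)) n j - qq (fun i => (b i, v i)) n j' =
            (y n - ((qe.symm (evS v (Nat.pair n j')) : ℚ) : ℝ)) -
            (y n - ((qe.symm (evS v (Nat.pair n j)) : ℚ) : ℝ)) := by
          unfold qq evS
          ring
        rw [h3]
        refine (abs_sub _ _).trans ?_
        linarith
      · have h1 := hA i j
        have h2 := hε' i hi'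
        have h3 : qq (fun i => (b i, v i)) i j - ((w.getD i 0 : ℚ) : ℝ) =
            (y i - ((w.getD i 0 : ℚ) : ℝ)) -
            (y i - ((qe.symm (evS v (Nat.pair i j)) : ℚ) : ℝ)) := by
          unfold qq evS
          ring
        rw [h3]
        refine (abs_sub _ _).trans ?_
        linarith
    obtain ⟨z', hz', h⟩ := branch_abs (N := N) (P := fun m z => PP t d u w s ε m z)
      (g := fun m => 2 * m + 1) (IF.succ (IF.mul (IF.const 2) IF.id))
      (ip_PP hT ht hd (IF.const u) (IF.const w) (IF.const s) (IF.const ε) IF.fst IF.snd)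
      (fun m z z' h1 h2 => PP_loc h1 h2) (fun i => (b i, v i)) hPP
    exact ⟨⟨z', hz'⟩, h⟩
  · rintro ⟨hu, hw, ε, hε, z, hz⟩
    set b : ℕ → Bool := fun i => (z.f i).1 with hb
    set v : ℕ → ℕ := fun i => (z.f i).2 with hv
    have hF : ((b, t, d, evS v), odS v) ∈ F2 := by
      rw [F2_iff]
      intro m
      exact (hz m).1
    obtain ⟨y, hy⟩ := exists_lim (a := evS v) (fun n j j' => by
      have h1 := (hz (max (Nat.pair n j) (Nat.pair n j') + 1)).2.1 n j j'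
        (Nat.lt_succ_of_le (le_max_left _ _)) (Nat.lt_succ_of_le (le_max_right _ _))
      exact h1)
    refine ⟨hu, hw, b, y, v, ⟨hF, hy⟩, fun i hi => ?_⟩
    have h4 := (hz (i + 1)).2.2.2 i hi (Nat.lt_succ_self i)
    refine ⟨h4.1, ?_, h4.2⟩
    have h1 : |y i - ((w.getD i 0 : ℚ) : ℝ)| ≤ (1 / 2 : ℝ) ^ s.length - (ε : ℝ) :=
      lim_le hy fun j => (hz (Nat.pair i j + 1)).2.2.1 i j hi (Nat.lt_succ_self _)
    have h2 : (0 : ℝ) < (ε : ℝ) := by exact_mod_cast hε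
    linarith

theorem ip_TF (hT : IP N T2) {t d : ℕ → Bool} (ht : IF N t) (hd : IF N d) :
    IP N (fun p : List Bool × List ℚ × List ℕ => CPY.TF (FF t d) p.1 p.2.1 p.2.2) := by
  refine IP.congr (fun p => (TF_iff hT ht hd p.1 p.2.1 p.2.2).symm) ?_
  refine IP.and (IP.eq (IF.length IF.fst) (IF.length (IF.snd' IF.snd))) (IP.and
    (IP.eq (IF.length (IF.fst' IF.snd)) (IF.length (IF.snd' IF.snd))) ?_)
  refine IP.ex (P := fun (p : List Bool × List ℚ × List ℕ) (ε : ℚ) => 0 < ε ∧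
      ∃ z : Fn N ℕ (Bool × ℕ), ∀ m, PP t d p.1 p.2.1 p.2.2 ε m z.f) ?_
  refine IP.and (IP.ltQ (IF.const 0) IF.snd) ?_
  refine IP.ex (P := fun (q : (List Bool × List ℚ × List ℕ) × ℚ) (z : Fn N ℕ (Bool × ℕ)) =>
    ∀ m, PP t d q.1.1 q.1.2.1 q.1.2.2 q.2 m z.f) ?_
  refine IP.all (P := fun (q : ((List Bool × List ℚ × List ℕ) × ℚ) × Fn N ℕ (Bool × ℕ)) (m : ℕ) =>
    PP t d q.1.1.1 q.1.1.2.1 q.1.1.2.2 q.1.2 m q.2.f) ?_
  have h1 : IF N (fun p : (((List Bool × List ℚ × List ℕ) × ℚ) × Fn N ℕ (Bool × ℕ)) × ℕ =>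
    p.1.1.1) := IF.fst' (IF.fst' IF.fst)
  exact ip_PP hT ht hd (IF.fst' h1) (IF.fst' (IF.snd' h1)) (IF.snd' (IF.snd' h1))
    (IF.snd' (IF.fst' IF.fst)) IF.snd (IF.snd' IF.fst)

end CPYD
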