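import Pool.Agent.CPY.D.Ded
import Pool.Agent.CPY.D.Fin1
import Pool.Agent.CPY.D.TFi
import Pool.Agent.CPY.TopDefs

/-! # Block D: the principle H from a coherent enumeration of reals (assembly; helper50) -/

set_option autoImplicit false

universe u v w

namespace CPYD

open WCal WM LGr CPY

variable {N : Type u} [WM N] [Std N] {Θ : Type w} [WTy N Θ] [LinearOrder Θ]

theorem dec_unique {d c x x' : ℕ → Bool} (h : Dec d c x) (h' : Dec d c x') : x = x' := by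
  funext k
  obtain ⟨n0, h0⟩ := h k
  obtain ⟨n1, h1⟩ := h' k
  rw [← h0 (max n0 n1) (le_max_left _ _), ← h1 (max n0 n1) (le_max_right _ _)]

theorem cut_unique {x : ℕ → Bool} {y y' : ℕ → ℝ} (h : Cut x y) (h' : Cut x y') : y = y' := by
  funext n
  by_contra hne
  rcases lt_or_gt_of_ne hne with h1 | h1
  · obtain ⟨q, hq1, hq2⟩ := exists_rat_btwn h1
    have h2 := (h' n q).2 hq2
    exact absurd ((h n q).1 h2) (not_lt.2 hq1.le)
  · obtain ⟨q, hq1, hq2⟩ := exists_rat_btwn h1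
    have h2 := (h n q).2 hq2
    exact absurd ((h' n q).1 h2) (not_lt.2 hq1.le)

/-- the principle H -/
theorem hpr_of {t : ℕ → Bool} (ht : IF N t) (hT : IP N T2) {c : Θ → ℕ → Bool}
    (hΘ : Nonempty Θ) (hlt : IP N (fun p : Θ × Θ => p.1 < p.2))
    (hc : IF N (fun p : Θ × ℕ => c p.1 p.2))
    (hA1 : ∀ b, IF N b → Tb b t → WellFounded (Jb b) → ∀ k x, Rea b k x → ∃ a, c a = x)
    (hA2 : ∀ γ : Θ, ∃ b, IF N b ∧ Tb b t ∧ WellFounded (Jb b) ∧ ∃ k x, Rea b k x ∧ ∀ a ≤ γ, c a ≠ x)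
    (hC : Cod N c) : HPr N Θ := by
  intro r hr _ _
  obtain ⟨x, hx, hxr⟩ := exists_cut (N := N) hr
  obtain ⟨d0, hd0, hd0'⟩ := hC (fun p => x p.1 p.2) hx
  obtain ⟨d, hd, hdd⟩ := exists_conv (N := N) (d0 := fun k l => d0 (k, l)) (by simpa using hd0)
  have hdec : ∀ a, Dec d (c a) (x a) := by
    intro a k
    obtain ⟨n0, h0⟩ := hd0' a k
    exact ⟨n0, fun n hn => by rw [hdd]; exact h0 n hn⟩
  refine ⟨FF t d, closed_FF t d, ip_TF hT ht hd, ?_, ?_⟩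
  · intro b hb
    obtain ⟨a, ha⟩ := exists_N0 (N := N) (t := t) (c := c) hΘ hA1 hb
    have h1 : NN b t d (r a) := ⟨c a, x a, ha, hdec a, hxr a⟩
    have h2 : IR N (r a) := hr.comp (g := fun n : ℕ => (a, n)) ((IF.const a).pair IF.id)
    obtain ⟨v, hv, hv'⟩ := exists_int hT hb ht hd h2 h1
    exact ⟨a, v, hv, hv'⟩
  · intro γ
    obtain ⟨b, s, hb, hs, hsγ, hN⟩ := exists_b (N := N) hlt hc hA1 hA2 γ
    refine ⟨b, s, hb, hs, hsγ, ?_⟩
    intro y v hyv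
    obtain ⟨c', x', h1, h2, h3⟩ := NN_of_FF hyv
    obtain ⟨n, hn⟩ := hN c' h1
    refine ⟨n, ?_⟩
    subst hn
    rw [dec_unique h2 (hdec (s n))] at h3
    exact cut_unique h3 (hxr (s n))

end CPYD
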