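import Pool.Agent.CPY.D.Defs

/-! # Block D: coherence of a coded structure is a Borel condition

(problem MP_ba5606_gt, ARH Part II, block D; architect helper50; Mathlib and `LGr/Defs.lean` only, 1.2 h)

A predicate `p : X → Prop` on a measurable space is written `Measurable p` (`Prop` is discrete); `measurableSet_setOf :
MeasurableSet {a | p a} ↔ Measurable p`. Closure rules: `Measurable.not`, `.and`, `.or`, `.imp`, `.iff`, and
`Measurable.forall`, `Measurable.exists` for quantifiers over a countable type, `measurable_const`. Everything below is built from the atomic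
predicates `b n = true` (`b : ℕ → Bool`; `measurable_pi_apply` and the measurability of all functions on `Bool`).

PROOFS.
* `countable_LF`: an injection of `LF` into a countable type; for instance prove by induction that `enc` is injective (`enc φ % 7` gives the
  constructor, `Nat.pair` is injective), then `Function.Injective.countable`. `countable_Key`: `Key ℕ` is equivalent to
  `LF × ℕ × List ℕ` (injective map `k ↦ (k.φ, k.a, k.l)`).
* `mea_isNum`: induction on `n`. `mea_lsat`: induction on the formula `φ` for all `v : ℕ → ℕ`: for `tp r i j k` countable quantifiers over `a b c`,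
  `mea_isNum`, and `Φ r a b c = Ph t r a b c` is atomic; for `all φ`: quantifier over `x : ℕ`.
* `mea_dfs`, `mea_ok`, `mea_klt`, `mea_Df`, `mea_less`: unfold; `∀ y ∈ k.l` is `∀ y, y ∈ k.l → ...` (`y ∈ k.l` is constant);
  quantifiers over `Key ℕ` (countable). `List.Shortlex r l l'` for fixed lists `l`, `l'` is a measurable condition on `r`: it is
  equivalent to `l.length < l'.length ∨ (l.length = l'.length ∧ List.Lex r l l')` (`List.shortlex_def`), and `List.Lex r l l'` is treated
  by induction on `l` and `l'` (`List.lex_nil`-like lemmas: `Lex r [] (b :: l')` is true, `Lex r l []` is false,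
  `Lex r (a :: l) (b :: l') ↔ r a b ∨ (a = b ∧ Lex r l l')`, by cases on the inductive predicate).
* `mea_Tb`: `Tb b t` is equivalent to the conjunction of the fields of `Coh` (write this equivalence: `⟨fun h => ⟨h.ext, ...⟩, fun h => ⟨..⟩⟩`),
  each is measurable by the rules. -/

set_option autoImplicit false

namespace CPYD

open WCal LGr

private theorem enc_inj : ∀ φ ψ : LF, enc φ = enc ψ → φ = ψ := by
  intro φ
  induction φ with
  | mem i j =>
    intro ψ h
    cases ψ <;> simp only [enc] at h <;> try omega
    have h1 := Nat.pair_eq_pair.1 (Nat.eq_of_mul_eq_mul_left (by norm_num : 0 < 7) h)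
    rw [h1.1, h1.2]
  | eq i j =>
    intro ψ h
    cases ψ <;> simp only [enc] at h <;> try omega
    rename_i i' j'
    have h0 : Nat.pair i j = Nat.pair i' j' := by omega
    have h1 := Nat.pair_eq_pair.1 h0
    rw [h1.1, h1.2]
  | lt i j =>
    intro ψ h
    cases ψ <;> simp only [enc] at h <;> try omega
    rename_i i' j'
    have h0 : Nat.pair i j = Nat.pair i' j' := by omega
    have h1 := Nat.pair_eq_pair.1 h0
    rw [h1.1, h1.2]
  | tp r i j k =>
    intro ψ h
    cases ψ <;> simp only [enc] at h <;> try omega
    rename_i r' i' j' k'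
    have h0 : Nat.pair (Nat.pair r i) (Nat.pair j k) =
      Nat.pair (Nat.pair r' i') (Nat.pair j' k') := by omega
    have h1 := Nat.pair_eq_pair.1 h0
    have h2 := Nat.pair_eq_pair.1 h1.1
    have h3 := Nat.pair_eq_pair.1 h1.2
    rw [h2.1, h2.2, h3.1, h3.2]
  | bot =>
    intro ψ h
    cases ψ <;> simp only [enc] at h <;> first | rfl | omega
  | imp φ φ' ih ih' =>
    intro ψ h
    cases ψ <;> simp only [enc] at h <;> try omega
    rename_i ψ ψ'
    have h0 : Nat.pair (enc φ) (enc φ') = Nat.pair (enc ψ) (enc ψ') := by omega
    have h1 := Nat.pair_eq_pair.1 h0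
    rw [ih _ h1.1, ih' _ h1.2]
  | all φ ih =>
    intro ψ h
    cases ψ <;> simp only [enc] at h <;> try omega
    rename_i ψ
    have h0 : enc φ = enc ψ := by omega
    rw [ih _ h0]

instance countable_LF : Countable LF :=
  Function.Injective.countable (f := enc) fun _ _ h => enc_inj _ _ h

instance countable_Key : Countable (Key ℕ) :=
  Function.Injective.countable (f := fun k : Key ℕ => (k.φ, k.a, k.l)) fun k k' h => by
    simp only [Prod.mk.injEq] at h
    exact Key.ext h.1 h.2.1 h.2.2

private theorem mea_at (n : ℕ) : Measurable fun b : ℕ → Bool => b n = true :=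
  (measurable_of_countable fun x : Bool => x = true).comp (measurable_pi_apply n)

section

variable {α : Type*} [MeasurableSpace α] {Φ : α → ℕ → ℕ → ℕ → ℕ → Prop}
  {E lt J lev : α → ℕ → ℕ → Prop} {D : α → ℕ → Prop}

private theorem mea_num (hE : ∀ x y, Measurable fun p => E p x y) (n z : ℕ) :
    Measurable fun p => isNum (E p) n z := by
  induction n generalizing z with
  | zero => exact Measurable.forall fun x => (hE x z).not
  | succ n ih =>
    exact Measurable.exists fun y => (ih y).and (Measurable.forall fun x =>
      (hE x z).iff ((hE x y).or measurable_const))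

private theorem mea_lsat (hΦ : ∀ r a b c, Measurable fun p => Φ p r a b c)
    (hE : ∀ x y, Measurable fun p => E p x y) (hlt : ∀ x y, Measurable fun p => lt p x y)
    (hD : ∀ x, Measurable fun p => D p x) (φ : LF) :
    ∀ v : ℕ → ℕ, Measurable fun p => lsat (Φ p) (E p) (lt p) (D p) φ v := by
  induction φ with
  | mem i j => exact fun v => hE _ _
  | eq i j => exact fun v => measurable_const
  | lt i j => exact fun v => hlt _ _
  | tp r i j k =>
    exact fun v => Measurable.exists fun a => Measurable.exists fun b => Measurable.exists fun c =>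
      (mea_num hE _ _).and ((mea_num hE _ _).and ((mea_num hE _ _).and (hΦ _ _ _ _)))
  | bot => exact fun v => measurable_const
  | imp φ ψ ih ih' => exact fun v => (ih v).imp (ih' v)
  | all φ ih => exact fun v => Measurable.forall fun x => (hD x).imp (ih _)

private theorem mea_dfs (hΦ : ∀ r a b c, Measurable fun p => Φ p r a b c)
    (hE : ∀ x y, Measurable fun p => E p x y) (hlt : ∀ x y, Measurable fun p => lt p x y)
    (hD : ∀ x, Measurable fun p => D p x) (k : Key ℕ) (x : ℕ) :
    Measurable fun p => k.dfs (Φ p) (E p) (lt p) (D p) x :=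
  Measurable.forall fun z => (hE z x).iff ((hD z).and (mea_lsat hΦ hE hlt hD _ _))

private theorem mea_ok (hD : ∀ x, Measurable fun p => D p x) (k : Key ℕ) :
    Measurable fun p => k.ok (D p) :=
  (hD _).and (Measurable.forall fun y => measurable_const.imp (hD y))

private theorem mea_lex (hlt : ∀ x y, Measurable fun p => lt p x y) :
    ∀ l l' : List ℕ, Measurable fun p => List.Lex (lt p) l l' := by
  intro l
  induction l with
  | nil =>
    intro l'
    cases l' with
    | nil =>
      have h : (fun p => List.Lex (lt p) [] []) = fun _ => False := by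
        funext p
        exact propext ⟨fun h => (nomatch h), fun h => h.elim⟩
      rw [h]
      exact measurable_const
    | cons b l' =>
      have h : (fun p => List.Lex (lt p) [] (b :: l')) = fun _ => True := by
        funext p
        exact propext ⟨fun _ => trivial, fun _ => List.Lex.nil⟩
      rw [h]
      exact measurable_const
  | cons a l ih =>
    intro l'
    cases l' with
    | nil =>
      have h : (fun p => List.Lex (lt p) (a :: l) []) = fun _ => False := by
        funext p
        exact propext ⟨fun h => (nomatch h), fun h => h.elim⟩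
      rw [h]
      exact measurable_const
    | cons b l' =>
      have h : (fun p => List.Lex (lt p) (a :: l) (b :: l')) = fun p =>
          lt p a b ∨ (a = b ∧ List.Lex (lt p) l l') := by
        funext p
        refine propext ⟨fun h => ?_, fun h => ?_⟩
        · cases h with
          | cons h => exact Or.inr ⟨rfl, h⟩
          | rel h => exact Or.inl h
        · rcases h with h | ⟨rfl, h⟩
          · exact List.Lex.rel h
          · exact List.Lex.cons h
      rw [h]
      exact (hlt a b).or (measurable_const.and (ih l'))

private theorem mea_klt (hlt : ∀ x y, Measurable fun p => lt p x y) (k k' : Key ℕ) :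
    Measurable fun p => klt (lt p) k k' := by
  have h : (fun p => klt (lt p) k k') = fun p => enc k.φ < enc k'.φ ∨ (k.φ = k'.φ ∧
      ((k.a :: k.l).length < (k'.a :: k'.l).length ∨
        ((k.a :: k.l).length = (k'.a :: k'.l).length ∧
          List.Lex (lt p) (k.a :: k.l) (k'.a :: k'.l)))) := by
    funext p
    unfold klt
    rw [List.shortlex_def]
  rw [h]
  exact measurable_const.or (measurable_const.and (measurable_const.or
    (measurable_const.and (mea_lex hlt _ _))))

private theorem mea_Df (hΦ : ∀ r a b c, Measurable fun p => Φ p r a b c)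
    (hE : ∀ x y, Measurable fun p => E p x y) (hlt : ∀ x y, Measurable fun p => lt p x y)
    (hD : ∀ x, Measurable fun p => D p x) (x : ℕ) :
    Measurable fun p => Df (Φ p) (E p) (lt p) (D p) x :=
  Measurable.exists fun k => (mea_ok hD k).and (mea_dfs hΦ hE hlt hD k x)

private theorem mea_less (hΦ : ∀ r a b c, Measurable fun p => Φ p r a b c)
    (hE : ∀ x y, Measurable fun p => E p x y) (hlt : ∀ x y, Measurable fun p => lt p x y)
    (hD : ∀ x, Measurable fun p => D p x) (x y : ℕ) :
    Measurable fun p => less (Φ p) (E p) (lt p) (D p) x y :=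
  Measurable.exists fun k => (mea_ok hD k).and ((mea_dfs hΦ hE hlt hD k x).and
    (Measurable.forall fun k' => (mea_ok hD k').imp ((mea_dfs hΦ hE hlt hD k' y).imp
      (mea_klt hlt k k'))))

private theorem mea_Suc (hJ : ∀ x y, Measurable fun p => J p x y) (j i : ℕ) :
    Measurable fun p => Suc (J p) j i :=
  (hJ j i).and (Measurable.forall fun k => (hJ k i).imp (measurable_const.or (hJ k j)))

private theorem mea_Coh (hΦ : ∀ r a b c, Measurable fun p => Φ p r a b c)
    (hE : ∀ x y, Measurable fun p => E p x y) (hlt : ∀ x y, Measurable fun p => lt p x y)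
    (hJ : ∀ x y, Measurable fun p => J p x y) (hV : ∀ x y, Measurable fun p => lev p x y) :
    Measurable fun p => Coh (Φ p) (E p) (lt p) (J p) (lev p) := by
  have h : (fun p => Coh (Φ p) (E p) (lt p) (J p) (lev p)) = fun p =>
      (∀ x y, (∀ z, E p z x ↔ E p z y) → x = y) ∧
      (∀ i j k, J p i j → J p j k → J p i k) ∧
      (∀ i, ¬ J p i i) ∧
      (∀ i j, J p i j ∨ i = j ∨ J p j i) ∧
      (∃ x, ∀ z, ¬ E p z x) ∧
      (∀ x, ∃ i, lev p i x) ∧
      (∀ i, (∀ j, ¬ J p j i) → ∀ x, lev p i x ↔ ∀ z, ¬ E p z x) ∧
      (∀ j i, Suc (J p) j i → ∀ x, lev p i x ↔ Df (Φ p) (E p) (lt p) (lev p j) x) ∧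
      (∀ j i, Suc (J p) j i → ∀ k : Key ℕ, k.ok (lev p j) →
        ∃ x, k.dfs (Φ p) (E p) (lt p) (lev p j) x) ∧
      (∀ i, (∃ j, J p j i) → (∀ j, ¬ Suc (J p) j i) → ∀ x, lev p i x ↔
        ∃ j, J p j i ∧ lev p j x) ∧
      (∀ i, (∀ j, ¬ J p j i) → ∀ x y, lev p i x → lev p i y → ¬ lt p x y) ∧
      (∀ j i, Suc (J p) j i → ∀ x y, lev p i x → lev p i y →
        (lt p x y ↔ (lev p j x ∧ lev p j y ∧ lt p x y) ∨ (lev p j x ∧ ¬ lev p j y) ∨
          (¬ lev p j x ∧ ¬ lev p j y ∧ less (Φ p) (E p) (lt p) (lev p j) x y))) := by
    funext p
    exact propext ⟨fun h => ⟨h.ext, h.Jtr, h.Jirr, h.Jlin, h.emp, h.tot, h.low, h.suc, h.sucex,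
      h.lim, h.ltlow, h.ltsuc⟩,
      fun ⟨h1, h2, h3, h4, h5, h6, h7, h8, h9, h10, h11, h12⟩ =>
        ⟨h1, h2, h3, h4, h5, h6, h7, h8, h9, h10, h11, h12⟩⟩
  rw [h]
  refine Measurable.and ?_ (Measurable.and ?_ (Measurable.and ?_ (Measurable.and ?_
    (Measurable.and ?_ (Measurable.and ?_ (Measurable.and ?_ (Measurable.and ?_
    (Measurable.and ?_ (Measurable.and ?_ (Measurable.and ?_ ?_))))))))))
  · exact Measurable.forall fun x => Measurable.forall fun y => Measurable.imp
      (Measurable.forall fun z => (hE z x).iff (hE z y)) measurable_const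
  · exact Measurable.forall fun i => Measurable.forall fun j => Measurable.forall fun k =>
      (hJ i j).imp ((hJ j k).imp (hJ i k))
  · exact Measurable.forall fun i => (hJ i i).not
  · exact Measurable.forall fun i => Measurable.forall fun j =>
      (hJ i j).or (measurable_const.or (hJ j i))
  · exact Measurable.exists fun x => Measurable.forall fun z => (hE z x).not
  · exact Measurable.forall fun x => Measurable.exists fun i => hV i x
  · exact Measurable.forall fun i => Measurable.imp (Measurable.forall fun j => (hJ j i).not)
      (Measurable.forall fun x => (hV i x).iff (Measurable.forall fun z => (hE z x).not))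
  · exact Measurable.forall fun j => Measurable.forall fun i => (mea_Suc hJ j i).imp
      (Measurable.forall fun x => (hV i x).iff (mea_Df hΦ hE hlt (hV j) x))
  · exact Measurable.forall fun j => Measurable.forall fun i => (mea_Suc hJ j i).imp
      (Measurable.forall fun k => (mea_ok (hV j) k).imp
        (Measurable.exists fun x => mea_dfs hΦ hE hlt (hV j) k x))
  · exact Measurable.forall fun i => Measurable.imp (Measurable.exists fun j => hJ j i)
      (Measurable.imp (Measurable.forall fun j => (mea_Suc hJ j i).not)
        (Measurable.forall fun x => (hV i x).iff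
          (Measurable.exists fun j => (hJ j i).and (hV j x))))
  · exact Measurable.forall fun i => Measurable.imp (Measurable.forall fun j => (hJ j i).not)
      (Measurable.forall fun x => Measurable.forall fun y => (hV i x).imp ((hV i y).imp
        (hlt x y).not))
  · exact Measurable.forall fun j => Measurable.forall fun i => (mea_Suc hJ j i).imp
      (Measurable.forall fun x => Measurable.forall fun y => (hV i x).imp ((hV i y).imp
        ((hlt x y).iff (((hV j x).and ((hV j y).and (hlt x y))).or
          (((hV j x).and (hV j y).not).or ((hV j x).not.and ((hV j y).not.and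
            (mea_less hΦ hE hlt (hV j) x y))))))))

end

/-- coherence is a Borel condition -/
theorem mea_Tb : MeasurableSet {p : (ℕ → Bool) × (ℕ → Bool) | Tb p.1 p.2} := by
  rw [measurableSet_setOfPred]
  exact mea_Coh (fun r a b c => (mea_at _).comp measurable_snd)
    (fun x y => (mea_at _).comp measurable_fst) (fun x y => (mea_at _).comp measurable_fst)
    (fun x y => (mea_at _).comp measurable_fst) (fun x y => (mea_at _).comp measurable_fst)

theorem mea_isNum (n z : ℕ) : Measurable fun b : ℕ → Bool => isNum (Eb b) n z :=
  mea_num (fun _ _ => mea_at _) n z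

end CPYD
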